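import Pool.Agent.Lib_helper7.K4L.Main
import Pool.Agent.Lib_helper66.K4M.Det3

set_option autoImplicit false

/-!
Project K4L: functionals on the exterior algebra.
-/

namespace Pool.Agent.K4L

open ExteriorAlgebra Pool.Agent.K4Closed

variable {N : ℕ} {UL : List ℕ} {X M : Type*} [AddCommGroup X] [Module ℚ X]
  [AddCommGroup M] [Module ℚ M]

lemma clz_eq_zero [NeZero N] {a : ZMod N} (h : clz a = 0) : a = 0 := by
  rcases clz_cases a with h1 | h1
  · rw [h, Nat.cast_zero] at h1; exact h1.symm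
  · rw [h, Nat.cast_zero] at h1; exact neg_eq_zero.mp h1.symm

/-- coordinates of `g a` -/
def co (a : ZMod N) (i : Fin (N / 2)) : ℚ := if clz a = i + 1 then 1 else 0

lemma co_cases [NeZero N] (a : ZMod N) :
    (a = 0 ∧ ∀ i, co a i = 0) ∨ ∃ j : Fin (N / 2), clz a = j + 1 ∧
      ∀ i, co a i = if i = j then 1 else 0 := by
  by_cases h : clz a = 0
  · left
    refine ⟨clz_eq_zero h, fun i => ?_⟩
    unfold co
    rw [if_neg (by omega)]
  · right
    have := clz_le a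
    refine ⟨⟨clz a - 1, by omega⟩, by simp only; omega, fun i => ?_⟩
    unfold co
    congr 1
    rw [Fin.ext_iff]
    simp only [eq_iff_iff]
    omega

lemma sum_co [NeZero N] {F : ZMod N → M} (F0 : F 0 = 0) (Fe : ∀ a, F (-a) = F a) (a : ZMod N) :
    ∑ i : Fin (N / 2), co a i • F ((i + 1 : ℕ) : ZMod N) = F a := by
  rcases co_cases a with ⟨h, h1⟩ | ⟨j, h, h1⟩
  · simp only [h1, zero_smul, Finset.sum_const_zero]
    rw [h, F0]
  · simp only [h1, ite_smul, one_smul, zero_smul, Finset.sum_ite_eq', Finset.mem_univ, if_true]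
    rw [← h, g_clz Fe]

lemma coord [NeZero N] {g : ZMod N → X} (g0 : g 0 = 0) (ge : ∀ a, g (-a) = g a)
    {L : X →ₗ[ℚ] (Fin (N / 2) → ℚ)}
    (hL : ∀ i : Fin (N / 2), L (g ((i + 1 : ℕ) : ZMod N)) = Pi.single i 1) (a : ZMod N)
    (i : Fin (N / 2)) : L (g a) i = co a i := by
  rcases co_cases a with ⟨h, h1⟩ | ⟨j, h, h1⟩
  · rw [h1, h, g0, map_zero]; rfl
  · rw [h1, ← g_clz ge, h, hL, Pi.single_apply]

/-- the trilinear form -/
def T3 (L : X →ₗ[ℚ] (Fin (N / 2) → ℚ)) (s : ZMod N → ZMod N → ZMod N → M) (x y w : X) : M :=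
  ∑ i : Fin (N / 2), ∑ j : Fin (N / 2), ∑ k : Fin (N / 2), (L x i * L y j * L w k) •
    s ((i + 1 : ℕ) : ZMod N) ((j + 1 : ℕ) : ZMod N) ((k + 1 : ℕ) : ZMod N)

lemma T3_s1 (L : X →ₗ[ℚ] (Fin (N / 2) → ℚ)) {s : ZMod N → ZMod N → ZMod N → M}
    (hs : Alt N UL s) (x y w : X) : T3 L s y x w = - T3 L s x y w := by
  unfold T3
  rw [Finset.sum_comm, ← Finset.sum_neg_distrib]
  refine Finset.sum_congr rfl fun i _ => ?_
  rw [← Finset.sum_neg_distrib]
  refine Finset.sum_congr rfl fun j _ => ?_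
  rw [← Finset.sum_neg_distrib]
  refine Finset.sum_congr rfl fun k _ => ?_
  rw [hs.s1, smul_neg, mul_comm (L y j) (L x i)]

lemma T3_s2 (L : X →ₗ[ℚ] (Fin (N / 2) → ℚ)) {s : ZMod N → ZMod N → ZMod N → M}
    (hs : Alt N UL s) (x y w : X) : T3 L s x w y = - T3 L s x y w := by
  unfold T3
  rw [← Finset.sum_neg_distrib]
  refine Finset.sum_congr rfl fun i _ => ?_
  rw [Finset.sum_comm, ← Finset.sum_neg_distrib]
  refine Finset.sum_congr rfl fun j _ => ?_
  rw [← Finset.sum_neg_distrib]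
  refine Finset.sum_congr rfl fun k _ => ?_
  rw [hs.s2, smul_neg, mul_right_comm]

/-- the functional of an alternating function -/
noncomputable def Psi (L : X →ₗ[ℚ] (Fin (N / 2) → ℚ)) (s : ZMod N → ZMod N → ZMod N → M) :
    ExteriorAlgebra ℚ X →ₗ[ℚ] M :=
  (6 : ℚ)⁻¹ • ∑ i : Fin (N / 2), ∑ j : Fin (N / 2), ∑ k : Fin (N / 2),
    (dfun (LinearMap.pi ![(LinearMap.proj i).comp L, (LinearMap.proj j).comp L,
      (LinearMap.proj k).comp L])).smulRight
      (s ((i + 1 : ℕ) : ZMod N) ((j + 1 : ℕ) : ZMod N) ((k + 1 : ℕ) : ZMod N))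

lemma Psi_mul (L : X →ₗ[ℚ] (Fin (N / 2) → ℚ)) {s : ZMod N → ZMod N → ZMod N → M}
    (hs : Alt N UL s) (x y w : X) : Psi L s (ι ℚ x * ι ℚ y * ι ℚ w) = T3 L s x y w := by
  have hd : ∀ i j k : Fin (N / 2), dfun (LinearMap.pi ![(LinearMap.proj i).comp L,
      (LinearMap.proj j).comp L, (LinearMap.proj k).comp L]) (ι ℚ x * ι ℚ y * ι ℚ w) =
      L x i * L y j * L w k - L x i * L w j * L y k - L y i * L x j * L w k +
        L w i * L x j * L y k + L y i * L w j * L x k - L w i * L y j * L x k := by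
    intro i j k
    have d : ∀ a b c : Fin 3 → ℚ, Matrix.det ![a, b, c] = a 0 * b 1 * c 2 - a 0 * b 2 * c 1
        - a 1 * b 0 * c 2 + a 1 * b 2 * c 0 + a 2 * b 0 * c 1 - a 2 * b 1 * c 0 :=
      fun a b c => Matrix.det_fin_three (R := ℚ) ![a, b, c]
    refine (dfun_mul _ x y w).trans ((d _ _ _).trans ?_)
    simp only [LinearMap.pi_apply, Matrix.cons_val_zero, Matrix.cons_val_one, Matrix.cons_val,
      LinearMap.comp_apply, LinearMap.proj_apply]
    ring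
  unfold Psi
  rw [LinearMap.smul_apply]
  simp only [LinearMap.sum_apply, LinearMap.smulRight_apply, hd, add_smul, sub_smul,
    Finset.sum_add_distrib, Finset.sum_sub_distrib]
  have e1 := T3_s2 L hs x y w
  have e2 := T3_s1 L hs x y w
  have e3 : T3 L s w x y = T3 L s x y w := by rw [T3_s1 L hs, e1, neg_neg]
  have e4 : T3 L s y w x = T3 L s x y w := by rw [T3_s2 L hs, e2, neg_neg]
  have e5 : T3 L s w y x = - T3 L s x y w := by rw [T3_s2 L hs, e3]
  unfold T3 at *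
  rw [e1, e2, e3, e4, e5]
  generalize (∑ i : Fin (N / 2), ∑ j : Fin (N / 2), ∑ k : Fin (N / 2), (L x i * L y j * L w k) •
    s ((i + 1 : ℕ) : ZMod N) ((j + 1 : ℕ) : ZMod N) ((k + 1 : ℕ) : ZMod N)) = Y
  module

/-- evaluation with two Siegel units -/
lemma T3_gg [NeZero N] {g : ZMod N → X} (g0 : g 0 = 0) (ge : ∀ a, g (-a) = g a)
    {L : X →ₗ[ℚ] (Fin (N / 2) → ℚ)}
    (hL : ∀ i : Fin (N / 2), L (g ((i + 1 : ℕ) : ZMod N)) = Pi.single i 1)
    {s : ZMod N → ZMod N → ZMod N → M} (hs : Alt N UL s) (a b : ZMod N) (w : X) :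
    T3 L s (g a) (g b) w =
      ∑ k : Fin (N / 2), L w k • s a b ((k + 1 : ℕ) : ZMod N) := by
  unfold T3
  simp only [coord g0 ge hL]
  have e1 : ∀ i j : Fin (N / 2), ∑ k : Fin (N / 2), (co a i * co b j * L w k) •
      s ((i + 1 : ℕ) : ZMod N) ((j + 1 : ℕ) : ZMod N) ((k + 1 : ℕ) : ZMod N) =
      co a i • co b j • ∑ k : Fin (N / 2), L w k •
        s ((i + 1 : ℕ) : ZMod N) ((j + 1 : ℕ) : ZMod N) ((k + 1 : ℕ) : ZMod N) := by
    intro i j
    rw [Finset.smul_sum, Finset.smul_sum]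
    refine Finset.sum_congr rfl fun k _ => ?_
    rw [smul_smul, smul_smul, mul_assoc]
  simp only [e1, ← Finset.smul_sum]
  have e2 : ∀ i : Fin (N / 2), ∑ j : Fin (N / 2), co b j • ∑ k : Fin (N / 2), L w k •
        s ((i + 1 : ℕ) : ZMod N) ((j + 1 : ℕ) : ZMod N) ((k + 1 : ℕ) : ZMod N) =
      ∑ k : Fin (N / 2), L w k • s ((i + 1 : ℕ) : ZMod N) b ((k + 1 : ℕ) : ZMod N) := by
    intro i
    refine sum_co (F := fun b => ∑ k : Fin (N / 2), L w k •
        s ((i + 1 : ℕ) : ZMod N) b ((k + 1 : ℕ) : ZMod N)) ?_ ?_ b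
    · simp only [hs.s1 0, hs.z, neg_zero, smul_zero, Finset.sum_const_zero]
    · intro b; simp only [hs.ev2]
  simp only [e2]
  refine sum_co (F := fun a => ∑ k : Fin (N / 2), L w k •
      s a b ((k + 1 : ℕ) : ZMod N)) ?_ ?_ a
  · simp only [hs.z, smul_zero, Finset.sum_const_zero]
  · intro a; simp only [hs.ev]

/-- evaluation with three Siegel units -/
lemma Psi_ggg [NeZero N] {g : ZMod N → X} (g0 : g 0 = 0) (ge : ∀ a, g (-a) = g a)
    {L : X →ₗ[ℚ] (Fin (N / 2) → ℚ)}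
    (hL : ∀ i : Fin (N / 2), L (g ((i + 1 : ℕ) : ZMod N)) = Pi.single i 1)
    {s : ZMod N → ZMod N → ZMod N → M} (hs : Alt N UL s) (a b c : ZMod N) :
    Psi L s (ι ℚ (g a) * ι ℚ (g b) * ι ℚ (g c)) = s a b c := by
  rw [Psi_mul L hs, T3_gg g0 ge hL hs]
  simp only [coord g0 ge hL]
  exact sum_co (F := fun c => s a b c) (hs.z3 a b) (hs.ev3 a b) c

/-- double contraction -/
noncomputable def CC (l m : X →ₗ[ℚ] ℚ) : ExteriorAlgebra ℚ X →ₗ[ℚ] X :=
  ιInv.comp ((CliffordAlgebra.contractLeft m).comp (CliffordAlgebra.contractLeft l))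

lemma CC_mul (l m : X →ₗ[ℚ] ℚ) (x y w : X) : CC l m (ι ℚ x * ι ℚ y * ι ℚ w) =
    (l x * m y - l y * m x) • w + (l w * m x - l x * m w) • y + (l y * m w - l w * m y) • x := by
  unfold CC
  rw [LinearMap.comp_apply, LinearMap.comp_apply, mul_assoc]
  have e1 : CliffordAlgebra.contractLeft l (ι ℚ x * (ι ℚ y * ι ℚ w)) =
      l x • (ι ℚ y * ι ℚ w) - ι ℚ x * (l y • ι ℚ w - ι ℚ y * algebraMap ℚ _ (l w)) := by
    rw [CliffordAlgebra.contractLeft_ι_mul, CliffordAlgebra.contractLeft_ι_mul,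
      CliffordAlgebra.contractLeft_ι]
  rw [e1]
  have e3 : ∀ (v : X) (q : ℚ), ι ℚ v * algebraMap ℚ (ExteriorAlgebra ℚ X) q = q • ι ℚ v := by
    intro v q
    rw [← Algebra.commutes, Algebra.smul_def]
  have e4 : ∀ v : X, ιInv (ι ℚ v) = v := fun v => ι_leftInverse v
  have e5 : ∀ v v' : X, CliffordAlgebra.contractLeft m (ι ℚ v * ι ℚ v') =
      m v • ι ℚ v' - m v' • ι ℚ v := by
    intro v v'
    rw [CliffordAlgebra.contractLeft_ι_mul, CliffordAlgebra.contractLeft_ι]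
    exact congrArg (fun t => m v • ι ℚ v' - t) (e3 v (m v'))
  have e6 : ι ℚ x * (l y • ι ℚ w - ι ℚ y * algebraMap ℚ (ExteriorAlgebra ℚ X) (l w)) =
      l y • (ι ℚ x * ι ℚ w) - l w • (ι ℚ x * ι ℚ y) := by
    rw [e3, mul_sub, mul_smul_comm, mul_smul_comm]
  have e7 : l x • (ι ℚ y * ι ℚ w) - ι ℚ x * (l y • ι ℚ w -
      ι ℚ y * algebraMap ℚ (ExteriorAlgebra ℚ X) (l w)) =
      l x • (ι ℚ y * ι ℚ w) - (l y • (ι ℚ x * ι ℚ w) - l w • (ι ℚ x * ι ℚ y)) := by rw [e6]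
  refine (congrArg (fun t => ιInv (CliffordAlgebra.contractLeft m t)) e7).trans ?_
  have e8 : CliffordAlgebra.contractLeft m
      (l x • (ι ℚ y * ι ℚ w) - (l y • (ι ℚ x * ι ℚ w) - l w • (ι ℚ x * ι ℚ y))) =
      l x • (m y • ι ℚ w - m w • ι ℚ y) - (l y • (m x • ι ℚ w - m w • ι ℚ x) -
        l w • (m x • ι ℚ y - m y • ι ℚ x)) := by
    rw [map_sub, map_sub, map_smul, map_smul, map_smul, e5, e5, e5]
  refine (congrArg (fun t => ιInv t) e8).trans ?_
  have e9 : l x • (m y • ι ℚ w - m w • ι ℚ y) - (l y • (m x • ι ℚ w - m w • ι ℚ x) -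
        l w • (m x • ι ℚ y - m y • ι ℚ x)) = ι ℚ ((l x * m y - l y * m x) • w +
        (l w * m x - l x * m w) • y + (l y * m w - l w * m y) • x) := by
    simp only [map_add, map_smul]
    module
  rw [e9, e4]

end Pool.Agent.K4L
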