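import Pool.Agent.Lib_helper7.K4L.Ev

set_option autoImplicit false

/-!
Project K4L: the function supported on an orbit and the invariant of orbits.
-/

namespace Pool.Agent.K4L

variable {N : ℕ} {UL : List ℕ} {M : Type*} [AddCommGroup M] [Module ℚ M]

/-- the class -/
def clz (a : ZMod N) : ℕ := cl N a.val

lemma cl_eq (a : ℕ) : cl N a = if 2 * a ≤ N then a else N - a := by
  unfold cl
  cases h : Nat.ble (2 * a) N
  · rw [if_neg]
    · rfl
    · intro h2
      rw [← Nat.ble_eq, h] at h2
      exact absurd h2 (by decide)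
  · rw [Nat.ble_eq] at h
    rw [if_pos h]
    rfl

lemma clz_nat [NeZero N] (a : ℕ) : clz (a : ZMod N) = cl N (a % N) := by
  unfold clz
  rw [ZMod.val_natCast]

lemma clz_mul [NeZero N] (u a : ℕ) : clz ((u : ZMod N) * (a : ZMod N)) = cl N (u * a % N) := by
  rw [← Nat.cast_mul, clz_nat]

lemma clz_neg [NeZero N] (a : ZMod N) : clz (-a) = clz a := by
  unfold clz
  rw [ZMod.neg_val]
  have h := ZMod.val_lt a
  by_cases h0 : a = 0
  · rw [if_pos h0, h0, ZMod.val_zero]
  · rw [if_neg h0, cl_eq, cl_eq]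
    have h1 : a.val ≠ 0 := fun h => h0 ((ZMod.val_eq_zero a).mp h)
    split_ifs <;> omega

lemma clz_cases [NeZero N] (a : ZMod N) : ((clz a : ℕ) : ZMod N) = a ∨
    ((clz a : ℕ) : ZMod N) = -a := by
  unfold clz
  rw [cl_eq]
  split_ifs with h
  · left; exact ZMod.natCast_zmod_val a
  · right
    rw [Nat.cast_sub (ZMod.val_lt a).le, ZMod.natCast_self, ZMod.natCast_zmod_val, zero_sub]

lemma clz_u [NeZero N] (u : ZMod N) (a : ZMod N) : clz (u * ((clz a : ℕ) : ZMod N)) = clz (u * a) := by
  rcases clz_cases a with h | h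
  · rw [h]
  · rw [h, mul_neg, clz_neg]

lemma clz_zero : clz (0 : ZMod N) = 0 := by
  unfold clz
  rw [ZMod.val_zero, cl_eq]
  simp

lemma beq_dec (a b : ℕ) : Nat.beq a b = decide (a = b) := by
  cases h : Nat.beq a b
  · symm
    exact decide_eq_false (beq_false h)
  · rw [Nat.beq_eq] at h
    exact (decide_eq_true h).symm

/-- indicator -/
def ei (p x : ℕ) : ℤ := if x = p then 1 else 0

lemma pm2_eq {q r : ℕ} (h : q ≠ r) (y z : ℕ) :
    pm2 q r y z = ei q y * ei r z - ei r y * ei q z := by
  unfold pm2 ei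
  simp only [beq_dec, Bool.cond_decide]
  by_cases h1 : y = q
  · have h2 : y ≠ r := fun e => h (h1.symm.trans e)
    rw [if_pos h1, if_pos h1, if_neg h2]; ring
  · rw [if_neg h1, if_neg h1]
    by_cases h2 : y = r
    · rw [if_pos h2, if_pos h2]
      split_ifs <;> ring
    · rw [if_neg h2, if_neg h2]; ring

lemma pm_eq {p q r : ℕ} (h1 : p ≠ q) (h2 : q ≠ r) (h3 : p ≠ r) (x y z : ℕ) :
    pm p q r x y z = ei p x * (ei q y * ei r z - ei r y * ei q z) +
      ei q x * (ei r y * ei p z - ei p y * ei r z) +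
      ei r x * (ei p y * ei q z - ei q y * ei p z) := by
  unfold pm
  rw [pm2_eq h2, pm2_eq h3.symm, pm2_eq h1]
  simp only [beq_dec, Bool.cond_decide]
  by_cases e1 : x = p
  · have e2 : x ≠ q := fun e => h1 (e1.symm.trans e)
    have e3 : x ≠ r := fun e => h3 (e1.symm.trans e)
    have a1 : ei p x = 1 := if_pos e1
    have a2 : ei q x = 0 := if_neg e2
    have a3 : ei r x = 0 := if_neg e3
    rw [if_pos e1, a1, a2, a3]; ring
  · have a1 : ei p x = 0 := if_neg e1
    rw [if_neg e1, a1]
    by_cases e2 : x = q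
    · have e3 : x ≠ r := fun e => h2 (e2.symm.trans e)
      have a2 : ei q x = 1 := if_pos e2
      have a3 : ei r x = 0 := if_neg e3
      rw [if_pos e2, a2, a3]; ring
    · have a2 : ei q x = 0 := if_neg e2
      rw [if_neg e2, a2]
      by_cases e3 : x = r
      · have a3 : ei r x = 1 := if_pos e3
        rw [if_pos e3, a3]; ring
      · have a3 : ei r x = 0 := if_neg e3
        rw [if_neg e3, a3]; ring

/-- if the sign is not zero, the entries are `p`, `q`, `r` up to order -/
lemma pm_ne {p q r x y z : ℕ} (h : pm p q r x y z ≠ 0) :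
    hw x + hw y + hw z = hw p + hw q + hw r ∧
    ∀ f : ℕ → ℕ, f x + f y + f z = f p + f q + f r := by
  have key : ∀ f : ℕ → ℕ, f x + f y + f z = f p + f q + f r := by
    intro f
    unfold pm pm2 at h
    simp only [beq_dec, Bool.cond_decide] at h
    split_ifs at h <;> first | exact absurd rfl h | (subst_vars; ring)
  exact ⟨key _, key⟩

/-- the function supported on an orbit -/
def chiz (UL : List ℕ) (p q r : ℕ) (a b c : ZMod N) : ℤ :=
  UL.foldr (fun (u : ℕ) s => pm p q r (clz ((u : ZMod N) * a)) (clz ((u : ZMod N) * b))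
    (clz ((u : ZMod N) * c)) + s) 0

/-- the invariant -/
def kapz (UL : List ℕ) (a b c : ZMod N) : ℕ :=
  UL.foldr (fun (u : ℕ) s => (fun x => bif Nat.ble x s then x else s)
    (hw (clz ((u : ZMod N) * a)) + hw (clz ((u : ZMod N) * b)) + hw (clz ((u : ZMod N) * c))))
    (2 ^ 17)

lemma chi_eq [NeZero N] (p q r a b c : ℕ) :
    chi N UL p q r a b c = chiz UL p q r (a : ZMod N) (b : ZMod N) (c : ZMod N) := by
  unfold chi chiz
  simp only [clz_mul]

lemma kap_eq [NeZero N] (a b c : ℕ) :
    kap N UL a b c = kapz UL (a : ZMod N) (b : ZMod N) (c : ZMod N) := by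
  unfold kap kapz
  simp only [clz_mul]

lemma chiz_sum (p q r : ℕ) (a b c : ZMod N) : chiz UL p q r a b c =
    (UL.map fun u : ℕ => pm p q r (clz ((u : ZMod N) * a)) (clz ((u : ZMod N) * b))
      (clz ((u : ZMod N) * c))).sum := by
  unfold chiz
  induction UL with
  | nil => rfl
  | cons u l ih => rw [List.foldr_cons, List.map_cons, List.sum_cons, ih]

lemma le_kapz (a b c : ZMod N) (k : ℕ) : k ≤ kapz UL a b c ↔ k ≤ 2 ^ 17 ∧ ∀ u ∈ UL,
    k ≤ hw (clz ((u : ZMod N) * a)) + hw (clz ((u : ZMod N) * b)) + hw (clz ((u : ZMod N) * c)) := by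
  unfold kapz
  induction UL with
  | nil => simp
  | cons u l ih =>
    rw [List.foldr_cons]
    simp only [List.mem_cons, forall_eq_or_imp]
    set m := hw (clz ((u : ZMod N) * a)) + hw (clz ((u : ZMod N) * b)) + hw (clz ((u : ZMod N) * c))
    set s := l.foldr (fun (u : ℕ) s => (fun x => bif Nat.ble x s then x else s)
      (hw (clz ((u : ZMod N) * a)) + hw (clz ((u : ZMod N) * b)) + hw (clz ((u : ZMod N) * c))))
      (2 ^ 17)
    have h : (bif Nat.ble m s then m else s) = min m s := by
      cases hh : Nat.ble m s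
      · rw [min_eq_right]
        · rfl
        · by_contra hc
          have : m ≤ s := by omega
          rw [← Nat.ble_eq, hh] at this
          exact absurd this (by decide)
      · rw [Nat.ble_eq] at hh
        rw [min_eq_left hh]; rfl
    rw [h, le_min_iff, ih]
    tauto

lemma grp_perm (h : grp N UL = true) {v : ℕ} (hv : v ∈ UL) :
    (UL.map fun u => u * v % N).Perm UL := by
  unfold grp at h
  rw [List.all_eq_true] at h
  exact List.isPerm_iff.mp (h v hv)

lemma mulmod_cast (u v : ℕ) : ((u * v % N : ℕ) : ZMod N) = (u : ZMod N) * v := by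
  rw [ZMod.natCast_mod, Nat.cast_mul]

lemma chiz_un (h : grp N UL = true) {v : ℕ} (hv : v ∈ UL) (p q r : ℕ) (a b c : ZMod N) :
    chiz UL p q r ((v : ZMod N) * a) (v * b) (v * c) = chiz UL p q r a b c := by
  rw [chiz_sum, chiz_sum]
  have e := ((grp_perm h hv).map fun u : ℕ => pm p q r (clz ((u : ZMod N) * a))
    (clz ((u : ZMod N) * b)) (clz ((u : ZMod N) * c))).sum_eq
  rw [List.map_map] at e
  rw [← e]
  congr 1
  refine List.map_congr_left fun u _ => ?_
  simp only [Function.comp, mulmod_cast, mul_assoc]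

lemma kapz_un (h : grp N UL = true) {v : ℕ} (hv : v ∈ UL) (a b c : ZMod N) :
    kapz UL ((v : ZMod N) * a) (v * b) (v * c) = kapz UL a b c := by
  refine eq_of_forall_le_iff fun k => ?_
  rw [le_kapz, le_kapz]
  refine and_congr_right fun _ => ?_
  have hp := grp_perm h hv
  constructor
  · intro H u hu
    rw [← hp.mem_iff, List.mem_map] at hu
    obtain ⟨w, hw, rfl⟩ := hu
    have := H w hw
    simpa only [mulmod_cast, mul_assoc] using this
  · intro H u hu
    have h1 : u * v % N ∈ UL := by
      rw [← hp.mem_iff, List.mem_map]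
      exact ⟨u, hu, rfl⟩
    have := H _ h1
    simpa only [mulmod_cast, mul_assoc] using this

/-- `χ` is supported on one value of the invariant -/
lemma kapz_of_chiz [NeZero N] (h : grp N UL = true) {p q r : ℕ} {a b c : ZMod N}
    (hc : chiz UL p q r a b c ≠ 0) :
    kapz UL a b c = kapz UL (p : ZMod N) (q : ZMod N) (r : ZMod N) := by
  obtain ⟨u, hu, hne⟩ : ∃ u ∈ UL, pm p q r (clz ((u : ZMod N) * a)) (clz ((u : ZMod N) * b))
      (clz ((u : ZMod N) * c)) ≠ 0 := by
    by_contra hcon
    push Not at hcon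
    apply hc
    rw [chiz_sum]
    refine List.sum_eq_zero ?_
    intro x hx
    rw [List.mem_map] at hx
    obtain ⟨u, hu, rfl⟩ := hx
    exact hcon u hu
  rw [← kapz_un h hu]
  obtain ⟨-, h2⟩ := pm_ne hne
  refine eq_of_forall_le_iff fun k => ?_
  rw [le_kapz, le_kapz]
  refine and_congr_right fun _ => forall₂_congr fun w _ => ?_
  have h3 := h2 (fun x => hw (clz ((w : ZMod N) * ((x : ℕ) : ZMod N))))
  simp only [clz_u] at h3
  rw [h3]

lemma sum_neg_map {F G : ℕ → ℤ} (h : ∀ u, F u = - G u) :
    (UL.map F).sum = -(UL.map G).sum := by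
  induction UL with
  | nil => simp
  | cons u l ih => rw [List.map_cons, List.map_cons, List.sum_cons, List.sum_cons, ih, h]; ring

omit [Module ℚ M] in
/-- the function is alternating and even -/
lemma alt_chiz [NeZero N] (h : grp N UL = true) {p q r : ℕ} (hp : 0 < p) (hq : p < q)
    (hr : q < r) (m : M) :
    Alt N UL (fun a b c => chiz UL p q r a b c • m) where
  s1 a b c := by
    rw [← neg_smul, chiz_sum, chiz_sum]
    congr 1
    refine sum_neg_map fun u => ?_
    rw [pm_eq (by omega) (by omega) (by omega), pm_eq (by omega) (by omega) (by omega)]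
    ring
  s2 a b c := by
    rw [← neg_smul, chiz_sum, chiz_sum]
    congr 1
    refine sum_neg_map fun u => ?_
    rw [pm_eq (by omega) (by omega) (by omega), pm_eq (by omega) (by omega) (by omega)]
    ring
  ev a b c := by
    rw [chiz_sum, chiz_sum]
    congr 2
    refine List.map_congr_left fun u _ => ?_
    rw [mul_neg, clz_neg]
  z b c := by
    have : chiz UL p q r 0 b c = 0 := by
      rw [chiz_sum]
      refine List.sum_eq_zero ?_
      intro x hx
      rw [List.mem_map] at hx
      obtain ⟨u, hu, rfl⟩ := hx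
      rw [mul_zero, clz_zero, pm_eq (by omega) (by omega) (by omega)]
      have a1 : ei p 0 = 0 := if_neg (by omega)
      have a2 : ei q 0 = 0 := if_neg (by omega)
      have a3 : ei r 0 = 0 := if_neg (by omega)
      rw [a1, a2, a3]; ring
    rw [this, zero_smul]
  un u hu a b c := by rw [chiz_un h hu]

end Pool.Agent.K4L
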