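import Mathlib.Data.Int.Notation
import Mathlib.Data.Nat.Notation

set_option autoImplicit false

/-!
Project K4L: the certificate checker. Systems `f(a,b,d)`, `a, b, d` modulo `N`, with the
symmetries of `t(a,b) ⊗ g_d`, the `ξ`-relations and the four term relation (R4), are of the form
`σ(a,b,d) + σ(b,c,d) + σ(c,a,d)`. Only computations here.
-/

namespace Pool.Agent.K4L

/-- bit `n` of `m` -/
def tb (m n : ℕ) : Bool := Nat.beq (Nat.shiftRight m n % 2) 1

/-- weights with different sums of three -/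
def hw (x : ℕ) : ℕ := Nat.shiftRight
  57131260842970660661104861841358211091940610257748378623041031868621859749655538273640558083335422318194345467045309946841223589414598213632 (15 * x) % 32768

/-- the units as a mask -/
def um (UL : List ℕ) : ℕ := UL.foldr (fun u S => S ||| 1 <<< u) 0

/-- add the elements of a list to a mask -/
def adds (l : List ℕ) (S : ℕ) : ℕ := l.foldr (fun x S => S ||| 1 <<< x) S

/-- the class of `a` modulo `±1`, `a < N` -/
def cl (N a : ℕ) : ℕ := bif Nat.ble (2 * a) N then a else N - a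

/-- order the first two entries -/
def sw1 (N : ℕ) (x : ℕ × ℕ × ℕ × ℕ) : ℕ × ℕ × ℕ × ℕ :=
  bif Nat.ble (cl N x.2.1) (cl N x.2.2.1) then x else (1 - x.1, x.2.2.1, x.2.1, x.2.2.2)

/-- order the last two entries -/
def sw2 (N : ℕ) (x : ℕ × ℕ × ℕ × ℕ) : ℕ × ℕ × ℕ × ℕ :=
  bif Nat.ble (cl N x.2.2.1) (cl N x.2.2.2) then x else (1 - x.1, x.2.1, x.2.2.2, x.2.2.1)

/-- change the signs -/
def sg1 (N : ℕ) (x : ℕ × ℕ × ℕ × ℕ) : ℕ × ℕ × ℕ × ℕ :=
  bif (Nat.blt N (2 * x.2.1) || (Nat.beq (2 * x.2.1) N && Nat.blt N (2 * x.2.2.1))) then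
    (x.1, N - x.2.1, N - x.2.2.1, N - x.2.2.2) else x

/-- degenerate triples -/
def deg (a b c : ℕ) : Bool :=
  Nat.beq a 0 || Nat.beq b 0 || Nat.beq c 0 || Nat.beq a b || Nat.beq b c || Nat.beq a c

/-- the third entry -/
def c3 (N a b : ℕ) : ℕ := (2 * N - a - b) % N

/-- normal form of a triple -/
def tn (N a b : ℕ) : ℕ × ℕ × ℕ × ℕ :=
  sg1 N (sw1 N (sw2 N (sw1 N (0, a, b, c3 N a b))))

/-- normal form of the last entry -/
def dn (N : ℕ) (x : ℕ × ℕ × ℕ × ℕ) (d : ℕ) : ℕ :=
  bif Nat.beq d (cl N x.2.2.1) || Nat.beq d (cl N x.2.2.2) then cl N x.2.1 else d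

/-- encoding -/
def kn (N : ℕ) (x : ℕ × ℕ × ℕ × ℕ) (d : ℕ) : ℕ :=
  2 * ((x.2.1 * N + x.2.2.1) * N + dn N x (cl N d)) + x.1

/-- normal form: zero, or twice the key plus the sign -/
def nf (N a b d : ℕ) : ℕ :=
  bif deg a b (c3 N a b) || Nat.beq d 0 then 0 else kn N (tn N a b) d

/-- normal form after multiplication by `u` -/
def nfu (N u a b d : ℕ) : ℕ := nf N (u * a % N) (u * b % N) (u * d % N)

/-- insertion -/
def ins (k : ℕ) (c : ℤ) : List (ℕ × ℤ) → List (ℕ × ℤ)
  | [] => [(k, c)]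
  | p :: l => bif Nat.beq p.1 k then (k, p.2 + c) :: l else p :: ins k c l

/-- add `c` times the normal form `r`, known elements are omitted -/
def addn (K : ℕ) (c : ℤ) (r : ℕ) (l : List (ℕ × ℤ)) : List (ℕ × ℤ) :=
  bif Nat.beq r 0 then l else
  bif tb K (r / 2) then l else
  bif Nat.beq (r % 2) 0 then ins (r / 2) c l else ins (r / 2) (-c) l

/-- the eight terms of the relation (R4) encoded by `r`; `u` are units -/
def addr (N K : ℕ) (c : ℤ) (x y z w : ℕ) (v : ℕ) (l : List (ℕ × ℤ)) : List (ℕ × ℤ) :=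
  addn K c (nfu N (v % 64) x y w) (addn K (-c) (nfu N (v / 64 % 64) x y z)
  (addn K c (nfu N (v / 64 ^ 2 % 64) z w y) (addn K (-c) (nfu N (v / 64 ^ 3 % 64) z w x)
  (addn K c (nfu N (v / 64 ^ 4 % 64) y z x) (addn K (-c) (nfu N (v / 64 ^ 5 % 64) y z w)
  (addn K c (nfu N (v / 64 ^ 6 % 64) w x z) (addn K (-c) (nfu N (v / 64 ^ 7 % 64) w x y) l)))))))

/-- the units of a relation -/
def okv (UL : List ℕ) (v : ℕ) : Bool :=
  tb (um UL) (v % 64) && tb (um UL) (v / 64 % 64) && tb (um UL) (v / 64 ^ 2 % 64) &&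
  tb (um UL) (v / 64 ^ 3 % 64) && tb (um UL) (v / 64 ^ 4 % 64) &&
  tb (um UL) (v / 64 ^ 5 % 64) && tb (um UL) (v / 64 ^ 6 % 64) && tb (um UL) (v / 64 ^ 7 % 64)

/-- a relation: `(coefficient, x + 64 y + 64² z, units)` -/
def addR (N K : ℕ) (p : ℤ × ℕ × ℕ) (l : List (ℕ × ℤ)) : List (ℕ × ℤ) :=
  addr N K p.1 (p.2.1 % 64 % N) (p.2.1 / 64 % 64 % N) (p.2.1 / 64 ^ 2 % N)
    ((3 * N - p.2.1 % 64 % N - p.2.1 / 64 % 64 % N - p.2.1 / 64 ^ 2 % N) % N) p.2.2 l

/-- add a multiple of a list -/
def addL (K : ℕ) (c : ℤ) (e : List (ℕ × ℤ)) (l : List (ℕ × ℤ)) : List (ℕ × ℤ) :=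
  e.foldr (fun p l => bif tb K p.1 then l else ins p.1 (c * p.2) l) l

/-- all coefficients but that of `k` vanish -/
def only (k : ℕ) (l : List (ℕ × ℤ)) : Bool :=
  l.all fun p => Nat.beq p.1 k || decide (p.2 = 0)

/-- the coefficient of `k` -/
def coe (k : ℕ) (l : List (ℕ × ℤ)) : ℤ :=
  l.foldr (fun p s => bif Nat.beq p.1 k then p.2 + s else s) 0

/-- sign of `(y,z)` as a permutation of `(q,r)` -/
def pm2 (q r y z : ℕ) : ℤ :=
  bif Nat.beq y q then (bif Nat.beq z r then 1 else 0) else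
  bif Nat.beq y r then (bif Nat.beq z q then -1 else 0) else 0

/-- sign of `(x,y,z)` as a permutation of `(p,q,r)` -/
def pm (p q r x y z : ℕ) : ℤ :=
  bif Nat.beq x p then pm2 q r y z else bif Nat.beq x q then pm2 r p y z else
  bif Nat.beq x r then pm2 p q y z else 0

/-- the function supported on the orbit of `(p,q,r)` -/
def chi (N : ℕ) (UL : List ℕ) (p q r a b c : ℕ) : ℤ :=
  UL.foldr (fun u s => pm p q r (cl N (u * a % N)) (cl N (u * b % N)) (cl N (u * c % N)) + s) 0

/-- invariant of an orbit -/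
def kap (N : ℕ) (UL : List ℕ) (a b c : ℕ) : ℕ :=
  UL.foldr (fun u s => (fun x => bif Nat.ble x s then x else s)
    (hw (cl N (u * a % N)) + hw (cl N (u * b % N)) + hw (cl N (u * c % N)))) (2 ^ 17)

/-- the boundary of the function of `(p,q,r)` at the key `k` -/
def bchi (N : ℕ) (UL : List ℕ) (p q r k : ℕ) : ℤ :=
  chi N UL p q r (k / (N * N)) (k / N % N) (k % N) +
  chi N UL p q r (k / N % N) (c3 N (k / (N * N) % N) (k / N % N)) (k % N) +
  chi N UL p q r (c3 N (k / (N * N) % N) (k / N % N)) (k / (N * N)) (k % N)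

/-- the invariants of the boundary at the key `k` -/
def bkap (N : ℕ) (UL : List ℕ) (k : ℕ) : List ℕ :=
  [kap N UL (k / (N * N)) (k / N % N) (k % N),
  kap N UL (k / N % N) (c3 N (k / (N * N) % N) (k / N % N)) (k % N),
  kap N UL (c3 N (k / (N * N) % N) (k / N % N)) (k / (N * N)) (k % N)]

/-- the steps of a certificate -/
inductive Step
  /-- `u k = -k` -/
  | T (k u : ℕ)
  /-- define the value of `σ` at `(p,q,r)` so that the element vanishes -/
  | D (k p q r : ℕ)
  /-- define the value of `σ` at `(p,q,r)` so that the combination vanishes -/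
  | E (e : List (ℕ × ℤ)) (p q r : ℕ)
  /-- a relation whose only unknown element is `k` -/
  | R (k r v : ℕ)
  /-- a combination of relations and of the previous combinations -/
  | C (k : ℕ) (rs : List (ℤ × ℕ × ℕ)) (es : List (ℤ × ℕ))

/-- known elements, defined orbits, combinations with the invariants of their boundaries -/
structure St where
  K : ℕ
  S : ℕ
  E : List (List (ℕ × ℤ) × ℕ)

/-- the boundary of the function of `(p,q,r)` at a combination -/
def bchiL (N : ℕ) (UL : List ℕ) (p q r : ℕ) (e : List (ℕ × ℤ)) : ℤ :=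
  e.foldr (fun x t => x.2 * bchi N UL p q r x.1 + t) 0

/-- the invariants of the boundary of a combination -/
def bkapL (N : ℕ) (UL : List ℕ) (e : List (ℕ × ℤ)) : ℕ :=
  e.foldr (fun x S => adds (bkap N UL x.1) S) 0

/-- the orbit of `(p,q,r)`, of invariant `k`, is new and does not meet the combinations -/
def newO (N : ℕ) (UL : List ℕ) (s : St) (p q r k : ℕ) : Bool :=
  Nat.blt 0 p && Nat.blt p q && Nat.blt q r && !(tb s.S k) &&
    s.E.all fun e => !(tb e.2 k) || decide (bchiL N UL p q r e.1 = 0)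

/-- one step -/
def step (N : ℕ) (UL : List ℕ) (s : St) : Step → Option St
  | .T k u =>
    bif tb (um UL) u && Nat.beq (nfu N u (k / (N * N)) (k / N % N) (k % N)) (2 * k + 1) then
      some ⟨s.K ||| 1 <<< k, s.S, s.E⟩ else none
  | .D k p q r =>
    bif newO N UL s p q r (kap N UL p q r) && decide (bchi N UL p q r k ≠ 0) then
      some ⟨s.K ||| 1 <<< k, adds (bkap N UL k) s.S, s.E⟩ else none
  | .E e p q r =>
    bif newO N UL s p q r (kap N UL p q r) && decide (bchiL N UL p q r e ≠ 0) then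
      some ⟨s.K, s.S, (e, bkapL N UL e) :: s.E⟩ else none
  | .R k r v =>
    bif okv UL v && (fun l => only k l && decide (coe k l ≠ 0)) (addR N s.K (1, r, v) []) then
      some ⟨s.K ||| 1 <<< k, s.S, s.E⟩ else none
  | .C k rs es =>
    bif (rs.all fun p => okv UL p.2.2) && (fun l => only k l && decide (coe k l ≠ 0))
      (es.foldr (fun p l => addL s.K p.1 (s.E.getD p.2 ([], 0)).1 l)
        (rs.foldr (fun p l => addR N s.K p l) [])) then
      some ⟨s.K ||| 1 <<< k, s.S, s.E⟩ else none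

/-- all steps -/
def run (N : ℕ) (UL : List ℕ) : St → List Step → Option St
  | s, [] => some s
  | s, x :: l => match step N UL s x with
    | none => none
    | some s' => run N UL s' l

/-- final check: every triple is a multiple of one of the representatives `(x, y)`; all elements
over the representatives are known. `rows` : for `a = 0, 1, …, N/2` the units of `(a,b)`; `reps`:
`x`, `y` and the units of `d = 0, 1, …, N/2`. -/
def fin (N : ℕ) (UL : List ℕ) (K : ℕ) (rows : List ℕ) (reps : List (ℕ × ℕ × ℕ)) : Bool :=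
  ((List.range (N / 2 + 1)).all fun a => (List.range N).all fun b =>
    deg a b (c3 N a b) || (fun u => tb (um UL) u &&
      (fun x => reps.any fun r => Nat.beq r.1 x.2.1 && Nat.beq r.2.1 x.2.2.1)
        (tn N (u * a % N) (u * b % N))) (rows.getD a 0 / 64 ^ b % 64)) &&
  reps.all fun r => (List.range (N / 2 + 1)).all fun d =>
    (fun u => tb (um UL) u && (fun k => Nat.beq k 0 || tb K (k / 2))
      (nfu N u r.1 r.2.1 d)) (r.2.2 / 64 ^ d % 64)

/-- the list is a group modulo `N` -/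
def grp (N : ℕ) (UL : List ℕ) : Bool :=
  UL.all fun v => (UL.map fun u => u * v % N).isPerm UL

/-- the whole check -/
def check (N : ℕ) (UL : List ℕ) (l : List Step) (rows : List ℕ) (reps : List (ℕ × ℕ × ℕ)) :
    Bool :=
  grp N UL && match run N UL ⟨0, 0, []⟩ l with
    | none => false
    | some s => fin N UL s.K rows reps

end Pool.Agent.K4L
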