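import Pool.Agent.Lib_helper7.K4L.Asm

set_option autoImplicit false

/-!
Project K4L: closed elements.
-/

namespace Pool.Agent.K4L

open ExteriorAlgebra

variable {N : ℕ} {UL : List ℕ} {A B X H M : Type*} [AddCommGroup A]
  [AddCommGroup B] [Module ℚ B] [AddCommGroup X] [Module ℚ X]
  [AddCommGroup H] [Module ℚ H] [AddCommGroup M] [Module ℚ M]

/-- the trace over `UL` -/
def tr (UL : List ℕ) (F : ZMod N → H) : H := (UL.map fun u : ℕ => F (u : ZMod N)).sum

omit [Module ℚ H] in
lemma tr_add (F G : ZMod N → H) : tr UL (fun u => F u + G u) = tr UL F + tr UL G := by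
  unfold tr
  induction UL with
  | nil => simp
  | cons u l ih =>
    rw [List.map_cons, List.map_cons, List.map_cons, List.sum_cons, List.sum_cons,
      List.sum_cons, ih]
    exact add_add_add_comm _ _ _ _

lemma tr_smul (c : ℚ) (F : ZMod N → H) : tr UL (fun u => c • F u) = c • tr UL F := by
  unfold tr
  induction UL with
  | nil => simp
  | cons u l ih => rw [List.map_cons, List.map_cons, List.sum_cons, List.sum_cons, ih, smul_add]

omit [Module ℚ H] in
lemma tr_neg (F : ZMod N → H) : tr UL (fun u => - F u) = - tr UL F := by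
  unfold tr
  induction UL with
  | nil => simp
  | cons u l ih =>
    rw [List.map_cons, List.map_cons, List.sum_cons, List.sum_cons, ih]
    exact (neg_add _ _).symm

omit [Module ℚ H] in
lemma tr_sub (F G : ZMod N → H) : tr UL (fun u => F u - G u) = tr UL F - tr UL G := by
  have : tr UL (fun u => F u - G u) = tr UL (fun u => F u + -G u) := by
    congr 1; funext u; abel
  rw [this, tr_add, tr_neg]; abel

omit [Module ℚ H] in
lemma tr_zero : tr UL (fun _ : ZMod N => (0 : H)) = 0 := by
  unfold tr
  induction UL with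
  | nil => simp
  | cons u l ih => rw [List.map_cons, List.sum_cons, ih, add_zero]

lemma map_tr (φ : H →ₗ[ℚ] M) (F : ZMod N → H) : φ (tr UL F) = tr UL fun u => φ (F u) := by
  unfold tr
  induction UL with
  | nil => simp
  | cons u l ih => rw [List.map_cons, List.map_cons, List.sum_cons, List.sum_cons, map_add, ih]

omit [Module ℚ H] in
lemma tr_un (h : grp N UL = true) {v : ℕ} (hv : v ∈ UL) (F : ZMod N → H) :
    tr UL (fun u => F (u * (v : ZMod N))) = tr UL F := by
  unfold tr
  have e := ((grp_perm h hv).map fun u : ℕ => F (u : ZMod N)).sum_eq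
  rw [List.map_map] at e
  rw [← e]
  congr 1
  refine List.map_congr_left fun u _ => ?_
  simp only [Function.comp, mulmod_cast]

lemma tr_const {F : ZMod N → M} {c : M} (h : ∀ u ∈ UL, F (u : ZMod N) = c) :
    tr UL F = (UL.length : ℚ) • c := by
  unfold tr
  induction UL with
  | nil => simp
  | cons u l ih =>
    rw [List.map_cons, List.sum_cons, h u List.mem_cons_self,
      ih fun v hv => h v (List.mem_cons_of_mem _ hv), List.length_cons, Nat.cast_add, add_smul,
      Nat.cast_one, one_smul, add_comm]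

/-- the data: `t` alternating and even, `g` even, and the relation (R4) -/
structure Dt (t : A → A → B) (g : A → X) (m : B →ₗ[ℚ] X →ₗ[ℚ] H) : Prop where
  swap : ∀ a b, t b a = - t a b
  rot : ∀ a b, t b (-a - b) = t a b
  even : ∀ a b, t (-a) (-b) = t a b
  zero : g 0 = 0
  geven : ∀ a, g (-a) = g a
  r4 : ∀ x y z w, x + y + z + w = 0 →
    m (t x y) (g w - g z) + m (t z w) (g y - g x) + m (t y z) (g x - g w) +
      m (t w x) (g z - g y) + (1 / 3 : ℚ) • (m (t x y) (g y - g x) + m (t y z) (g z - g y) +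
      m (t z w) (g w - g z) + m (t w x) (g x - g w) - (2 : ℚ) • m (t x z) (g z - g x) -
      (2 : ℚ) • m (t y w) (g w - g y)) = 0

lemma Dt.comp {t : A → A → B} {g : A → X} {m : B →ₗ[ℚ] X →ₗ[ℚ] H} (D : Dt t g m)
    {A' : Type*} [AddCommGroup A'] (f : A' →+ A) :
    Dt (fun a b => t (f a) (f b)) (fun a => g (f a)) m where
  swap a b := D.swap _ _
  rot a b := by simp only [map_sub, map_neg]; exact D.rot _ _
  even a b := by simp only [map_neg]; exact D.even _ _
  zero := by simp only [map_zero]; exact D.zero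
  geven a := by simp only [map_neg]; exact D.geven _
  r4 x y z w h := D.r4 _ _ _ _ (by rw [← map_add, ← map_add, ← map_add, h, map_zero])

section Z

variable {t : ZMod N → ZMod N → B} {g : ZMod N → X} {m : B →ₗ[ℚ] X →ₗ[ℚ] H}

/-- the traced classes -/
def Xi (UL : List ℕ) (t : ZMod N → ZMod N → B) (g : ZMod N → X) (m : B →ₗ[ℚ] X →ₗ[ℚ] H)
    (a b : ZMod N) : H := tr UL fun u => m (t (u * a) (u * b)) (g (u * b) - g (u * a))

/-- the span of the traced classes -/
def WW (UL : List ℕ) (t : ZMod N → ZMod N → B) (g : ZMod N → X) (m : B →ₗ[ℚ] X →ₗ[ℚ] H) :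
    Submodule ℚ H := Submodule.span ℚ {y | ∃ a b : ZMod N, y = Xi UL t g m a b}

/-- the traced symbols -/
def Sy (UL : List ℕ) (t : ZMod N → ZMod N → B) (g : ZMod N → X) (m : B →ₗ[ℚ] X →ₗ[ℚ] H)
    (a b d : ZMod N) : H := tr UL fun u => m (t (u * a) (u * b)) (g (u * d))

/-- the system of the traced symbols modulo the traced classes -/
theorem lsys (hg : grp N UL = true) (D : Dt t g m) :
    LSys N UL (fun a b d => (WW UL t g m).mkQ (Sy UL t g m a b d)) where
  sw a b d := by
    rw [← map_neg]
    congr 1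
    unfold Sy
    rw [← tr_neg]
    congr 1
    funext u
    rw [D.swap, map_neg, LinearMap.neg_apply]
  rot a b d := by
    congr 1
    unfold Sy
    congr 1
    funext u
    rw [← D.rot (u * a) (u * b), mul_sub, mul_neg]
  neg a b d := by
    congr 1
    unfold Sy
    congr 1
    funext u
    rw [mul_neg, mul_neg, D.even]
  evd a b d := by
    congr 1
    unfold Sy
    congr 1
    funext u
    rw [mul_neg, D.geven]
  zd a b := by
    have : Sy UL t g m a b 0 = 0 := by
      unfold Sy
      rw [← tr_zero (UL := UL) (N := N) (H := H)]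
      congr 1
      funext u
      rw [mul_zero, D.zero, map_zero]
    rw [this, map_zero]
  xi a b := by
    rw [eq_comm, ← sub_eq_zero, ← map_sub, Submodule.mkQ_apply, Submodule.Quotient.mk_eq_zero]
    refine Submodule.subset_span ⟨a, b, ?_⟩
    unfold Sy Xi
    rw [← tr_sub]
    congr 1
    funext u
    rw [map_sub]
  un v hv a b d := by
    congr 1
    unfold Sy
    rw [← tr_un hg hv (fun u => m (t (u * a) (u * b)) (g (u * d)))]
    congr 1
    funext u
    simp only [mul_assoc]
  r4 x y z w hs := by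
    have key : Sy UL t g m x y w - Sy UL t g m x y z + Sy UL t g m z w y - Sy UL t g m z w x +
        Sy UL t g m y z x - Sy UL t g m y z w + Sy UL t g m w x z - Sy UL t g m w x y =
        -(1 / 3 : ℚ) • (Xi UL t g m x y + Xi UL t g m y z + Xi UL t g m z w + Xi UL t g m w x -
          (2 : ℚ) • Xi UL t g m x z - (2 : ℚ) • Xi UL t g m y w) := by
      unfold Sy Xi
      simp only [← tr_smul, ← tr_add, ← tr_sub]
      congr 1
      funext u
      have h := D.r4 (u * x) (u * y) (u * z) (u * w) (by
        rw [← mul_add, ← mul_add, ← mul_add, hs, mul_zero])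
      simp only [map_sub] at h ⊢
      linear_combination (norm := module) h
    simp only [← map_sub, ← map_add]
    rw [key, Submodule.mkQ_apply, Submodule.Quotient.mk_eq_zero]
    have hX : ∀ a b, Xi UL t g m a b ∈ WW UL t g m :=
      fun a b => Submodule.subset_span ⟨a, b, rfl⟩
    exact Submodule.smul_mem _ _ (Submodule.sub_mem _ (Submodule.sub_mem _ (Submodule.add_mem _
      (Submodule.add_mem _ (Submodule.add_mem _ (hX _ _) (hX _ _)) (hX _ _)) (hX _ _))
      (Submodule.smul_mem _ _ (hX _ _))) (Submodule.smul_mem _ _ (hX _ _)))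

/-- the differential -/
def IsDiff (t : ZMod N → ZMod N → B) (g : ZMod N → X) (m : B →ₗ[ℚ] X →ₗ[ℚ] H)
    (D : H →ₗ[ℚ] ExteriorAlgebra ℚ X) : Prop :=
  ∀ a b u, D (m (t a b) u) = (ι ℚ (g a) * ι ℚ (g b) + ι ℚ (g b) * ι ℚ (g (a + b)) +
    ι ℚ (g (a + b)) * ι ℚ (g a)) * ι ℚ u

/-- **Closed traced elements.** -/
theorem closed_tr [NeZero N] {l : List Step} {rows : List ℕ} {reps : List (ℕ × ℕ × ℕ)}
    (hc : check N UL l rows reps = true) (hne : UL ≠ []) (Dd : Dt t g m)
    {D : H →ₗ[ℚ] ExteriorAlgebra ℚ X} (hD : IsDiff t g m D)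
    (hi : LinearIndependent ℚ fun i : Fin (N / 2) => g ((i + 1 : ℕ) : ZMod N)) {z : H}
    (hz : z ∈ Submodule.span ℚ {y | ∃ a b d : ZMod N, y = Sy UL t g m a b d}) (h0 : D z = 0) :
    z ∈ WW UL t g m := by
  have hg : grp N UL = true := by
    have := hc
    unfold check at this
    rw [Bool.and_eq_true] at this
    exact this.1
  obtain ⟨s, hs, hf⟩ := exists_bd hc (lsys hg Dd)
  obtain ⟨L, hL⟩ := Pool.Agent.K4Closed.exists_coord hi
  have key : ∀ z ∈ Submodule.span ℚ {y | ∃ a b d : ZMod N, y = Sy UL t g m a b d},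
      Psi L s (D z) = (UL.length : ℚ) • (WW UL t g m).mkQ z := by
    intro z hz
    induction hz using Submodule.span_induction with
    | mem y hy =>
      obtain ⟨a, b, d, rfl⟩ := hy
      rw [hf]
      unfold Sy
      rw [map_tr, map_tr]
      refine tr_const fun u hu => ?_
      rw [hD, add_mul, add_mul, map_add, map_add, Psi_ggg Dd.zero Dd.geven hL hs,
        Psi_ggg Dd.zero Dd.geven hL hs, Psi_ggg Dd.zero Dd.geven hL hs]
      have e : (u : ZMod N) * a + u * b = -(u * (-a - b)) := by ring
      rw [e, hs.ev2, hs.ev, hs.un u hu, hs.un u hu, hs.un u hu]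
      rfl
    | zero => simp
    | add x y _ _ hx hy => rw [map_add, map_add, hx, hy, map_add, smul_add]
    | smul c x _ hx => rw [map_smul, map_smul, hx, map_smul, smul_comm]
  have h1 := key z hz
  rw [h0, map_zero] at h1
  have h2 : (UL.length : ℚ) ≠ 0 := by
    rw [Nat.cast_ne_zero]
    exact fun h => hne (List.length_eq_zero_iff.mp h)
  have h3 := (smul_eq_zero.mp h1.symm).resolve_left h2
  rwa [Submodule.mkQ_apply, Submodule.Quotient.mk_eq_zero] at h3

end Z

end Pool.Agent.K4L
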