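import Pool.Agent.Lib_helper7.K4L.Clo
import Pool.Agent.Lib_helper54.K4L.Rho

set_option autoImplicit false

/-!
Project K4L: closed elements with arbitrary second factors.
-/

namespace Pool.Agent.K4L

open ExteriorAlgebra

variable {N : ℕ} {B X H M : Type*}
  [AddCommGroup B] [Module ℚ B] [AddCommGroup X] [Module ℚ X]
  [AddCommGroup H] [Module ℚ H] [AddCommGroup M] [Module ℚ M]
  {t : ZMod N → ZMod N → B} {g : ZMod N → X} {m : B →ₗ[ℚ] X →ₗ[ℚ] H}

/-- `t(a,b)` for `d ≠ 0`, zero for `d = 0`, is a system -/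
lemma lsys_t (D : Dt t g m) :
    LSys N [1] (fun a b d => if d = 0 then (0 : B) else t a b) where
  sw a b d := by
    split_ifs
    · rw [neg_zero]
    · exact D.swap a b
  rot a b d := by rw [D.rot]
  neg a b d := by rw [D.even]
  evd a b d := by simp only [neg_eq_zero]
  zd a b := if_pos rfl
  xi a b := by
    have z1 : ∀ b, t 0 b = 0 := by
      intro b
      have h1 : t b (-b) = 0 := by
        refine self_neg ?_
        have h2 := D.even b (-b)
        rw [neg_neg, D.swap b (-b)] at h2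
        exact h2.symm
      have h3 := D.rot 0 b
      rw [neg_zero, zero_sub] at h3
      rw [← h3, h1]
    by_cases ha : a = 0
    · rw [if_pos ha, ha, z1, ite_self]
    · by_cases hb : b = 0
      · rw [if_neg ha, if_pos hb, hb, D.swap, z1, neg_zero]
      · rw [if_neg ha, if_neg hb]
  un u hu a b d := by
    have : u = 1 := by simpa using hu
    subst this
    simp only [Nat.cast_one, one_mul]
  r4 x y z w hs := by
    have z1 : ∀ b, t 0 b = 0 := by
      intro b
      have h1 : t b (-b) = 0 := by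
        refine self_neg ?_
        have h2 := D.even b (-b)
        rw [neg_neg, D.swap b (-b)] at h2
        exact h2.symm
      have h3 := D.rot 0 b
      rw [neg_zero, zero_sub] at h3
      rw [← h3, h1]
    have z2 : ∀ b, t b 0 = 0 := fun b => by rw [D.swap, z1, neg_zero]
    have z3 : ∀ a b, a + b = 0 → t a b = 0 := by
      intro a b h
      rw [← D.rot a b, show -a - b = -(a + b) by ring, h, neg_zero, z2]
    -- rotations
    have r : ∀ a b c, a + b + c = 0 → t b c = t a b := by
      intro a b c h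
      rw [← D.rot a b]
      congr 1
      linear_combination h
    by_cases hx : x = 0
    · by_cases hy : y = 0
      · by_cases hz : z = 0
        · have hw : w = 0 := by rw [hx, hy, hz] at hs; simpa using hs
          simp [hx, hy, hz, hw]
        · by_cases hw : w = 0
          · exact absurd (by rw [hx, hy, hw] at hs; simpa using hs) hz
          · have h1 : t z w = 0 := z3 _ _ (by rw [hx, hy] at hs; simpa using hs)
            simp [hx, hy, hz, hw, z1, z2]
      · by_cases hz : z = 0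
        · by_cases hw : w = 0
          · exact absurd (by rw [hx, hz, hw] at hs; simpa using hs) hy
          · simp [hx, hy, hz, hw, z1, z2]
        · by_cases hw : w = 0
          · have h1 : t y z = 0 := z3 _ _ (by rw [hx, hw] at hs; simpa using hs)
            simp [hx, hy, hz, hw, z1, z2]
          · have h1 := r y z w (by rw [hx] at hs; simpa using hs)
            simp [hx, hy, hz, hw, z1, z2, h1]
    · by_cases hy : y = 0
      · by_cases hz : z = 0
        · by_cases hw : w = 0
          · exact absurd (by rw [hy, hz, hw] at hs; simpa using hs) hx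
          · have h1 : t w x = 0 := z3 _ _ (by rw [hy, hz] at hs; rw [add_comm]; simpa using hs)
            simp [hx, hy, hz, hw, z1, z2]
        · by_cases hw : w = 0
          · simp [hx, hy, hz, hw, z1, z2]
          · have h1 := r z w x (by rw [hy] at hs; linear_combination hs)
            simp [hx, hy, hz, hw, z1, z2, h1]
      · by_cases hz : z = 0
        · by_cases hw : w = 0
          · have h1 : t x y = 0 := z3 _ _ (by rw [hz, hw] at hs; simpa using hs)
            simp [hx, hy, hz, hw, z1, z2]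
          · have h1 := r w x y (by rw [hz] at hs; linear_combination hs)
            simp [hx, hy, hz, hw, z1, z2, h1]
        · by_cases hw : w = 0
          · have h1 := r x y z (by rw [hw] at hs; linear_combination hs)
            simp [hx, hy, hz, hw, z1, z2, h1]
          · simp only [if_neg hx, if_neg hy, if_neg hz, if_neg hw]
            abel

/-- a retraction of the differential of `t` -/
theorem exists_rho0 [NeZero N] (D : Dt t g m) :
    ∃ ρ : ZMod N → ZMod N → B, (∀ a b, ρ b a = - ρ a b) ∧ (∀ a b, ρ (-a) b = ρ a b) ∧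
      (∀ b, ρ 0 b = 0) ∧ ∀ a b, t a b = ρ a b + ρ b (-a - b) + ρ (-a - b) a := by
  have hT : K4ParP.IsT t := ⟨D.swap, D.rot, D.even⟩
  obtain ⟨ρ, h1, h2, h3⟩ := exists_rho hT
  have h2' : ∀ a b, ρ a (-b) = ρ a b := fun a b => by rw [h1, h2, h1, neg_neg]
  have hd : ∀ a, ρ a a = 0 := fun a => self_neg (h1 a a)
  refine ⟨fun a b => if a = 0 ∨ b = 0 then 0 else ρ a b, fun a b => ?_, fun a b => ?_,
    fun b => ?_, fun a b => ?_⟩
  · by_cases ha : a = 0
    · simp [ha]
    · by_cases hb : b = 0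
      · simp [hb]
      · simp [ha, hb, h1 a b]
  · simp only [neg_eq_zero, h2]
  · simp
  · by_cases ha : a = 0
    · rw [ha, Rho.z1 hT]
      by_cases hb : b = 0
      · simp [hb]
      · simp [hb, h2', hd]
    · by_cases hb : b = 0
      · rw [hb, Rho.z2 hT]
        simp [ha, h2, hd]
      · by_cases hc : -a - b = 0
        · have hb' : b = -a := by linear_combination -hc
          rw [hb', h3 a (-a)]
          have e : -a - -a = 0 := by ring
          have e0 : ρ 0 a = - ρ a 0 := h1 a 0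
          simp [ha, h2, h2', e0]
        · have h4 := h3 a b
          simp only [ha, hb, hc, or_self, if_false]
          exact h4

/-- projection to a complement of the span of the `g` -/
noncomputable def pj (g : ZMod N → X) (L : X →ₗ[ℚ] (Fin (N / 2) → ℚ)) : X →ₗ[ℚ] X :=
  LinearMap.id - ∑ k : Fin (N / 2),
    ((LinearMap.proj k).comp L).smulRight (g ((k + 1 : ℕ) : ZMod N))

lemma pj_apply (g : ZMod N → X) (L : X →ₗ[ℚ] (Fin (N / 2) → ℚ)) (u : X) :
    pj g L u = u - ∑ k : Fin (N / 2), L u k • g ((k + 1 : ℕ) : ZMod N) := by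
  unfold pj
  rw [LinearMap.sub_apply, LinearMap.id_apply, LinearMap.sum_apply]
  rfl

lemma pj_g [NeZero N] {g : ZMod N → X} (g0 : g 0 = 0) (ge : ∀ a, g (-a) = g a)
    {L : X →ₗ[ℚ] (Fin (N / 2) → ℚ)}
    (hL : ∀ i : Fin (N / 2), L (g ((i + 1 : ℕ) : ZMod N)) = Pi.single i 1) (a : ZMod N) :
    pj g L (g a) = 0 := by
  rw [pj_apply]
  simp only [coord g0 ge hL]
  rw [sum_co (F := g) g0 ge, sub_self]

/-- the functional of `ρ` -/
noncomputable def Phi (m : B →ₗ[ℚ] X →ₗ[ℚ] H) (g : ZMod N → X)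
    (L : X →ₗ[ℚ] (Fin (N / 2) → ℚ)) (ρ : ZMod N → ZMod N → B) :
    ExteriorAlgebra ℚ X →ₗ[ℚ] H :=
  (2 : ℚ)⁻¹ • ∑ i : Fin (N / 2), ∑ j : Fin (N / 2),
    (m (ρ ((i + 1 : ℕ) : ZMod N) ((j + 1 : ℕ) : ZMod N))).comp
      ((pj g L).comp (CC ((LinearMap.proj i).comp L) ((LinearMap.proj j).comp L)))

lemma Phi_gg [NeZero N] {g : ZMod N → X} (g0 : g 0 = 0) (ge : ∀ a, g (-a) = g a)
    {L : X →ₗ[ℚ] (Fin (N / 2) → ℚ)}
    (hL : ∀ i : Fin (N / 2), L (g ((i + 1 : ℕ) : ZMod N)) = Pi.single i 1)
    {ρ : ZMod N → ZMod N → B} (r1 : ∀ a b, ρ b a = - ρ a b) (r2 : ∀ a b, ρ (-a) b = ρ a b)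
    (r0 : ∀ b, ρ 0 b = 0) (a b : ZMod N) (u : X) :
    Phi m g L ρ (ι ℚ (g a) * ι ℚ (g b) * ι ℚ u) = m (ρ a b) (pj g L u) := by
  have r3 : ∀ a b, ρ a (-b) = ρ a b := fun a b => by rw [r1, r2, r1, neg_neg]
  have r4 : ∀ a, ρ a 0 = 0 := fun a => by rw [r1, r0, neg_zero]
  set v := pj g L u with hv
  have hC : ∀ i j : Fin (N / 2), pj g L (CC ((LinearMap.proj i).comp L)
      ((LinearMap.proj j).comp L) (ι ℚ (g a) * ι ℚ (g b) * ι ℚ u)) =
      (co a i * co b j - co b i * co a j) • v := by
    intro i j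
    rw [CC_mul, map_add, map_add, map_smul, map_smul, map_smul, pj_g g0 ge hL, pj_g g0 ge hL,
      smul_zero, smul_zero, add_zero, add_zero]
    simp only [LinearMap.comp_apply, LinearMap.proj_apply, coord g0 ge hL]
    rfl
  unfold Phi
  rw [LinearMap.smul_apply]
  simp only [LinearMap.sum_apply]
  have hS : ∀ i j : Fin (N / 2), ((m (ρ ((i + 1 : ℕ) : ZMod N) ((j + 1 : ℕ) : ZMod N))).comp
      ((pj g L).comp (CC ((LinearMap.proj i).comp L) ((LinearMap.proj j).comp L))))
      (ι ℚ (g a) * ι ℚ (g b) * ι ℚ u) =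
      (co a i * co b j) • m (ρ ((i + 1 : ℕ) : ZMod N) ((j + 1 : ℕ) : ZMod N)) v -
      (co b i * co a j) • m (ρ ((i + 1 : ℕ) : ZMod N) ((j + 1 : ℕ) : ZMod N)) v := by
    intro i j
    rw [LinearMap.comp_apply, LinearMap.comp_apply, hC, map_smul, sub_smul]
  simp only [hS, Finset.sum_sub_distrib]
  have key : ∀ a b : ZMod N, ∑ i : Fin (N / 2), ∑ j : Fin (N / 2), (co a i * co b j) •
      m (ρ ((i + 1 : ℕ) : ZMod N) ((j + 1 : ℕ) : ZMod N)) v = m (ρ a b) v := by
    intro a b
    simp only [mul_smul, ← Finset.smul_sum]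
    have e1 : ∀ i : Fin (N / 2), ∑ j : Fin (N / 2), co b j •
        m (ρ ((i + 1 : ℕ) : ZMod N) ((j + 1 : ℕ) : ZMod N)) v =
        m (ρ ((i + 1 : ℕ) : ZMod N) b) v := fun i =>
      sum_co (F := fun b => m (ρ ((i + 1 : ℕ) : ZMod N) b) v)
        (by simp only [r4, map_zero, LinearMap.zero_apply]) (fun b => by simp only [r3]) b
    simp only [e1]
    exact sum_co (F := fun a => m (ρ a b) v)
      (by simp only [r0, map_zero, LinearMap.zero_apply]) (fun a => by simp only [r2]) a
  rw [key a b]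
  have e2 : ∑ i : Fin (N / 2), ∑ j : Fin (N / 2), (co b i * co a j) •
      m (ρ ((i + 1 : ℕ) : ZMod N) ((j + 1 : ℕ) : ZMod N)) v = m (ρ b a) v := key b a
  rw [e2, r1 a b, map_neg, LinearMap.neg_apply]
  module

lemma Sy_one (a b d : ZMod N) : Sy [1] t g m a b d = m (t a b) (g d) := by
  unfold Sy tr
  simp

lemma Xi_one (a b : ZMod N) : Xi [1] t g m a b = m (t a b) (g b - g a) := by
  unfold Xi tr
  simp

/-- **Closed elements, a general criterion.** -/
theorem closed_gen [NeZero N] (Dd : Dt t g m)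
    {D : H →ₗ[ℚ] ExteriorAlgebra ℚ X} (hD : IsDiff t g m D)
    (hi : LinearIndependent ℚ fun i : Fin (N / 2) => g ((i + 1 : ℕ) : ZMod N))
    {W : Submodule ℚ H} {s : ZMod N → ZMod N → ZMod N → H ⧸ W} (hs : Alt N [1] s)
    (hf : ∀ a b d, W.mkQ (m (t a b) (g d)) = bd s a b d) {z : H}
    (hz : z ∈ Submodule.span ℚ {y | ∃ (a b : ZMod N) (u : X), y = m (t a b) u}) (h0 : D z = 0) :
    z ∈ W := by
  obtain ⟨ρ, r1, r2, r0, hρ⟩ := exists_rho0 Dd
  obtain ⟨L, hL⟩ := Pool.Agent.K4Closed.exists_coord hi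
  have key : ∀ z ∈ Submodule.span ℚ {y | ∃ (a b : ZMod N) (u : X), y = m (t a b) u},
      Psi L s (D z) + W.mkQ (Phi m g L ρ (D z)) = W.mkQ z := by
    intro z hz
    induction hz using Submodule.span_induction with
    | mem y hy =>
      obtain ⟨a, b, u, rfl⟩ := hy
      rw [hD, add_mul, add_mul, map_add (Psi L s), map_add (Psi L s), map_add (Phi m g L ρ),
        map_add (Phi m g L ρ), Phi_gg Dd.zero Dd.geven hL r1 r2 r0,
        Phi_gg Dd.zero Dd.geven hL r1 r2 r0,
        Phi_gg Dd.zero Dd.geven hL r1 r2 r0, Psi_mul L hs, Psi_mul L hs, Psi_mul L hs,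
        T3_gg Dd.zero Dd.geven hL hs, T3_gg Dd.zero Dd.geven hL hs, T3_gg Dd.zero Dd.geven hL hs,
        ← Finset.sum_add_distrib, ← Finset.sum_add_distrib]
      have e : a + b = -(-a - b) := by ring
      have e1 : ∀ k : Fin (N / 2), L u k • s a b ((k + 1 : ℕ) : ZMod N) +
          L u k • s b (a + b) ((k + 1 : ℕ) : ZMod N) +
          L u k • s (a + b) a ((k + 1 : ℕ) : ZMod N) =
          W.mkQ (L u k • m (t a b) (g ((k + 1 : ℕ) : ZMod N))) := by
        intro k
        have := hf a b ((k + 1 : ℕ) : ZMod N)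
        rw [map_smul, this, e, hs.ev2, hs.ev]
        unfold bd
        rw [smul_add, smul_add]
      have e2 : m (ρ a b) (pj g L u) + m (ρ b (a + b)) (pj g L u) +
          m (ρ (a + b) a) (pj g L u) = m (t a b) (pj g L u) := by
        rw [hρ a b, e, r2, r1 (-(-a - b)) b, r2, ← r1, map_add, map_add, LinearMap.add_apply,
          LinearMap.add_apply]
      simp only [e1]
      rw [← map_sum, ← map_add, e2]
      congr 1
      simp only [← map_smul]
      rw [← map_sum, ← map_add, pj_apply]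
      congr 1
      abel
    | zero => simp
    | add x y _ _ hx hy =>
      rw [map_add, map_add, map_add, map_add, map_add, ← hx, ← hy]; abel
    | smul c x _ hx =>
      rw [map_smul, map_smul, map_smul, map_smul, map_smul, ← hx, smul_add]
  have h2 := key z hz
  rw [h0, map_zero, map_zero, map_zero, add_zero] at h2
  rwa [eq_comm, Submodule.mkQ_apply, Submodule.Quotient.mk_eq_zero] at h2

/-- **Closed elements, arbitrary second factors.** -/
theorem closed_full [NeZero N] {l : List Step} {rows : List ℕ}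
    {reps : List (ℕ × ℕ × ℕ)} (hc : check N [1] l rows reps = true) (Dd : Dt t g m)
    {D : H →ₗ[ℚ] ExteriorAlgebra ℚ X} (hD : IsDiff t g m D)
    (hi : LinearIndependent ℚ fun i : Fin (N / 2) => g ((i + 1 : ℕ) : ZMod N)) {z : H}
    (hz : z ∈ Submodule.span ℚ {y | ∃ (a b : ZMod N) (u : X), y = m (t a b) u}) (h0 : D z = 0) :
    z ∈ WW [1] t g m := by
  have hg : grp N [1] = true := by
    have := hc
    unfold check at this
    rw [Bool.and_eq_true] at this
    exact this.1
  obtain ⟨s, hs, hf⟩ := exists_bd hc (lsys hg Dd)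
  refine closed_gen Dd hD hi hs (fun a b d => ?_) hz h0
  rw [← hf, Sy_one]

/-- the span of the symbols with differences of units as second factor -/
def WD (t : ZMod N → ZMod N → B) (g : ZMod N → X) (m : B →ₗ[ℚ] X →ₗ[ℚ] H) :
    Submodule ℚ H :=
  Submodule.span ℚ {y | ∃ a b c d : ZMod N, c ≠ 0 ∧ d ≠ 0 ∧ y = m (t a b) (g c - g d)}

/-- **Closed elements have modular units as second factors.** -/
theorem closed_dif [NeZero N] (Dd : Dt t g m)
    {D : H →ₗ[ℚ] ExteriorAlgebra ℚ X} (hD : IsDiff t g m D)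
    (hi : LinearIndependent ℚ fun i : Fin (N / 2) => g ((i + 1 : ℕ) : ZMod N)) {z : H}
    (hz : z ∈ Submodule.span ℚ {y | ∃ (a b : ZMod N) (u : X), y = m (t a b) u}) (h0 : D z = 0) :
    z ∈ WD t g m := by
  obtain ⟨ρ, r1, r2, r0, hρ⟩ := exists_rho0 Dd
  have hT : K4ParP.IsT t := ⟨Dd.swap, Dd.rot, Dd.even⟩
  have r2' : ∀ a b, ρ a (-b) = ρ a b := fun a b => by rw [r1, r2, r1, neg_neg]
  have rd : ∀ a, ρ a a = 0 := fun a => self_neg (r1 a a)
  have rd' : ∀ a, ρ (-a) a = 0 := fun a => by rw [r2, rd]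
  -- the alternating function
  let s : ZMod N → ZMod N → ZMod N → H ⧸ WD t g m := fun a b c =>
    if a = 0 ∨ b = 0 ∨ c = 0 then 0 else
      (WD t g m).mkQ (m (ρ a b + ρ b c + ρ c a) (g 1))
  have hs : Alt N [1] s := by
    refine ⟨fun a b c => ?_, fun a b c => ?_, fun a b c => ?_, fun b c => ?_, ?_⟩
    · by_cases h : a = 0 ∨ b = 0 ∨ c = 0
      · have h' : b = 0 ∨ a = 0 ∨ c = 0 := by tauto
        simp only [s, if_pos h, if_pos h', neg_zero]
      · have h' : ¬ (b = 0 ∨ a = 0 ∨ c = 0) := by tauto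
        simp only [s, if_neg h, if_neg h']
        rw [← map_neg, ← LinearMap.neg_apply, ← map_neg, r1 a b, r1 c a, r1 b c]
        congr 3
        abel
    · by_cases h : a = 0 ∨ b = 0 ∨ c = 0
      · have h' : a = 0 ∨ c = 0 ∨ b = 0 := by tauto
        simp only [s, if_pos h, if_pos h', neg_zero]
      · have h' : ¬ (a = 0 ∨ c = 0 ∨ b = 0) := by tauto
        simp only [s, if_neg h, if_neg h']
        rw [← map_neg, ← LinearMap.neg_apply, ← map_neg, r1 a b, r1 c a, r1 b c]
        congr 3
        abel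
    · simp only [s, neg_eq_zero, r2, r2']
    · simp [s]
    · intro u hu a b c
      have : u = 1 := by simpa using hu
      subst this
      simp only [Nat.cast_one, one_mul]
  have hz2 : ∀ a c, s a 0 c = 0 := fun a c => by rw [hs.s1, hs.z, neg_zero]
  refine closed_gen Dd hD hi hs (fun a b d => ?_) hz h0
  by_cases hd : d = 0
  · subst hd
    unfold bd
    rw [hs.z3, hs.z3, hs.z3, Dd.zero, map_zero, map_zero, add_zero, add_zero]
  by_cases hN : (1 : ZMod N) = 0
  · exfalso
    apply hd
    rw [← mul_one d, hN, mul_zero]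
  have e0 : (WD t g m).mkQ (m (t a b) (g d)) = (WD t g m).mkQ (m (t a b) (g 1)) := by
    rw [← sub_eq_zero, ← map_sub, Submodule.mkQ_apply, Submodule.Quotient.mk_eq_zero, ← map_sub]
    exact Submodule.subset_span ⟨a, b, d, 1, hd, hN, rfl⟩
  rw [e0]
  unfold bd
  by_cases ha : a = 0
  · subst ha
    rw [Rho.z1 hT, map_zero, LinearMap.zero_apply, map_zero]
    have e : -(0 : ZMod N) - b = -b := by ring
    rw [e, hs.z, hs.ev2, hs.d12, hs.ev, hz2, add_zero, add_zero]
  by_cases hb : b = 0
  · subst hb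
    rw [Rho.z2 hT, map_zero, LinearMap.zero_apply, map_zero]
    have e : -a - (0 : ZMod N) = -a := by ring
    rw [e, hs.z, hz2, hs.ev, hs.d12, add_zero, add_zero]
  by_cases hc : -a - b = 0
  · have hb' : b = -a := by linear_combination -hc
    rw [hc, hs.z, hz2, add_zero, add_zero, hb', hs.ev2, hs.d12]
    have e1 : t a (-a) = 0 := by
      rw [← Dd.rot a (-a), show -a - -a = (0 : ZMod N) by ring, Rho.z2 hT]
    rw [e1, map_zero, LinearMap.zero_apply, map_zero]
  simp only [s, ha, hb, hc, hd, or_self, if_false]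
  rw [← map_add, ← map_add, ← LinearMap.add_apply, ← map_add, ← LinearMap.add_apply, ← map_add]
  congr 3
  rw [hρ a b, r1 d a, r1 b d, r1 d (-a - b)]
  abel

end Pool.Agent.K4L
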