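import Pool.Agent.Lib_helper7.K4L.Sys

set_option autoImplicit false

/-!
Project K4L: linear combinations.
-/

namespace Pool.Agent.K4L

variable {N : ℕ} {UL : List ℕ} {M : Type*} [AddCommGroup M] [Module ℚ M]

lemma tb_eq (m n : ℕ) : tb m n = Nat.testBit m n := by
  unfold tb
  rw [Nat.testBit_eq_decide_div_mod_eq, Bool.eq_iff_iff, Nat.beq_eq, decide_eq_true_eq,
    ← Nat.shiftRight_eq_div_pow]
  rfl

lemma or_iff (S a b : ℕ) : tb (S ||| 1 <<< a) b = true ↔ tb S b = true ∨ a = b := by
  rw [tb_eq, tb_eq, Nat.testBit_or, Bool.or_eq_true, Nat.one_shiftLeft, Nat.testBit_two_pow,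
    decide_eq_true_eq]

lemma um_mem {u : ℕ} (h : tb (um UL) u = true) : u ∈ UL := by
  induction UL with
  | nil =>
    rw [tb_eq] at h
    unfold um at h
    rw [List.foldr_nil, Nat.zero_testBit] at h
    exact absurd h (by decide)
  | cons x l ih =>
    have e : um (x :: l) = um l ||| 1 <<< x := rfl
    rw [e, or_iff] at h
    rcases h with h | h
    · exact List.mem_cons_of_mem _ (ih h)
    · rw [h]; exact List.mem_cons_self

lemma adds_mem {l : List ℕ} {S x : ℕ} (h : x ∈ l ∨ tb S x = true) :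
    tb (adds l S) x = true := by
  induction l with
  | nil =>
    rcases h with h | h
    · exact absurd h List.not_mem_nil
    · exact h
  | cons y l ih =>
    have e : adds (y :: l) S = adds l S ||| 1 <<< y := rfl
    rw [e, or_iff]
    rcases h with h | h
    · rcases List.mem_cons.mp h with h | h
      · right; rw [h]
      · left; exact ih (Or.inl h)
    · left; exact ih (Or.inr h)

/-- the value of a combination -/
def ev (g : ZMod N → ZMod N → ZMod N → M) (l : List (ℕ × ℤ)) : M :=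
  l.foldr (fun p s => p.2 • val g p.1 + s) 0

/-- `K` consists of known elements -/
def Kn (g : ZMod N → ZMod N → ZMod N → M) (K : ℕ) : Prop :=
  ∀ k, Nat.testBit K k = true → val g k = 0

omit [Module ℚ M] in
@[simp] lemma ev_nil (g : ZMod N → ZMod N → ZMod N → M) : ev g [] = 0 := rfl

omit [Module ℚ M] in
lemma ev_cons (g : ZMod N → ZMod N → ZMod N → M) (p : ℕ × ℤ) (l : List (ℕ × ℤ)) :
    ev g (p :: l) = p.2 • val g p.1 + ev g l := rfl

omit [Module ℚ M] in
lemma ev_ins (g : ZMod N → ZMod N → ZMod N → M) (k : ℕ) (c : ℤ) (l : List (ℕ × ℤ)) :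
    ev g (ins k c l) = c • val g k + ev g l := by
  induction l with
  | nil => rfl
  | cons p l ih =>
    unfold ins
    cases h : Nat.beq p.1 k
    · simp only [cond_false]
      rw [ev_cons, ih, ev_cons]; abel
    · simp only [cond_true]
      rw [Nat.beq_eq] at h
      rw [ev_cons, ev_cons, h, add_smul]; abel

omit [Module ℚ M] in
lemma ev_addn {g : ZMod N → ZMod N → ZMod N → M} {K : ℕ} (hK : Kn g K) (c : ℤ) (r : ℕ)
    (l : List (ℕ × ℤ)) : ev g (addn K c r l) = c • dec g r + ev g l := by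
  unfold addn dec
  cases h : Nat.beq r 0
  · simp only [cond_false]
    rw [if_neg (beq_false h)]
    cases h1 : tb K (r / 2)
    · simp only [cond_false]
      cases h2 : Nat.beq (r % 2) 0
      · simp only [cond_false]
        rw [ev_ins]
        unfold sgn
        rw [if_neg (beq_false h2)]
        simp
      · simp only [cond_true]
        rw [Nat.beq_eq] at h2
        rw [ev_ins]
        unfold sgn
        rw [if_pos h2]
        simp
    · simp only [cond_true]
      rw [tb_eq] at h1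
      rw [hK _ h1]
      simp
  · simp only [cond_true]
    rw [Nat.beq_eq] at h
    rw [if_pos h]
    simp

/-- the units of a relation -/
lemma okv_mem {v : ℕ} (h : okv UL v = true) : v % 64 ∈ UL ∧ v / 64 % 64 ∈ UL ∧
    v / 64 ^ 2 % 64 ∈ UL ∧ v / 64 ^ 3 % 64 ∈ UL ∧ v / 64 ^ 4 % 64 ∈ UL ∧ v / 64 ^ 5 % 64 ∈ UL ∧
    v / 64 ^ 6 % 64 ∈ UL ∧ v / 64 ^ 7 % 64 ∈ UL := by
  unfold okv at h
  simp only [Bool.and_eq_true] at h
  obtain ⟨⟨⟨⟨⟨⟨⟨h0, h1⟩, h2⟩, h3⟩, h4⟩, h5⟩, h6⟩, h7⟩ := h
  exact ⟨um_mem h0, um_mem h1, um_mem h2, um_mem h3, um_mem h4, um_mem h5, um_mem h6, um_mem h7⟩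

lemma ev_addr [NeZero N] {g : ZMod N → ZMod N → ZMod N → M} (hg : LSys N UL g) {K : ℕ}
    (hK : Kn g K) (c : ℤ) {v : ℕ} (hv : okv UL v = true) {x y z w : ℕ}
    (hs : (x : ZMod N) + y + z + w = 0) (l : List (ℕ × ℤ)) :
    ev g (addr N K c x y z w v l) = ev g l := by
  obtain ⟨u0, u1, u2, u3, u4, u5, u6, u7⟩ := okv_mem hv
  unfold addr
  rw [ev_addn hK, ev_addn hK, ev_addn hK, ev_addn hK, ev_addn hK, ev_addn hK, ev_addn hK,
    ev_addn hK, dec_nfu hg u0, dec_nfu hg u1, dec_nfu hg u2, dec_nfu hg u3, dec_nfu hg u4,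
    dec_nfu hg u5, dec_nfu hg u6, dec_nfu hg u7]
  have h := congrArg (fun t => c • t) (hg.r4 x y z w hs)
  simp only [smul_add, smul_sub, smul_zero] at h
  simp only [neg_smul]
  rw [← sub_eq_zero, ← h]
  abel

lemma ev_addR [NeZero N] {g : ZMod N → ZMod N → ZMod N → M} (hg : LSys N UL g) {K : ℕ}
    (hK : Kn g K) (p : ℤ × ℕ × ℕ) (hv : okv UL p.2.2 = true) (l : List (ℕ × ℤ)) :
    ev g (addR N K p l) = ev g l := by
  unfold addR
  refine ev_addr hg hK _ hv ?_ l
  have hN := Nat.pos_of_ne_zero (NeZero.ne N)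
  have h1 := Nat.mod_lt (p.2.1 % 64) hN
  have h2 := Nat.mod_lt (p.2.1 / 64 % 64) hN
  have h3 := Nat.mod_lt (p.2.1 / 64 ^ 2) hN
  generalize p.2.1 % 64 % N = x at *
  generalize p.2.1 / 64 % 64 % N = y at *
  generalize p.2.1 / 64 ^ 2 % N = z at *
  rw [ZMod.natCast_mod, Nat.cast_sub (by omega), Nat.cast_sub (by omega), Nat.cast_sub (by omega),
    Nat.cast_mul, ZMod.natCast_self]
  ring

omit [Module ℚ M] in
lemma ev_addL {g : ZMod N → ZMod N → ZMod N → M} {K : ℕ} (hK : Kn g K) (c : ℤ)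
    (e l : List (ℕ × ℤ)) : ev g (addL K c e l) = c • ev g e + ev g l := by
  unfold addL
  induction e with
  | nil => simp
  | cons p e ih =>
    rw [List.foldr_cons, ev_cons]
    cases h : tb K p.1
    · simp only [cond_false]
      rw [ev_ins, ih, smul_add, mul_smul]
      abel
    · simp only [cond_true]
      rw [tb_eq] at h
      rw [hK _ h, ih]
      simp

omit [Module ℚ M] in
lemma ev_only {g : ZMod N → ZMod N → ZMod N → M} {k : ℕ} {l : List (ℕ × ℤ)}
    (h : only k l = true) : ev g l = coe k l • val g k := by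
  induction l with
  | nil => simp [coe]
  | cons p l ih =>
    unfold only at h ih
    rw [List.all_cons, Bool.and_eq_true] at h
    obtain ⟨h1, h2⟩ := h
    rw [ev_cons, ih h2]
    unfold coe
    rw [List.foldr_cons]
    cases h3 : Nat.beq p.1 k
    · simp only [cond_false]
      rw [h3, Bool.false_or, decide_eq_true_eq] at h1
      rw [h1, zero_smul, zero_add]
    · simp only [cond_true]
      rw [Nat.beq_eq] at h3
      rw [h3, add_smul]

lemma val_of_only {g : ZMod N → ZMod N → ZMod N → M} {k : ℕ} {l : List (ℕ × ℤ)}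
    (h : only k l = true) (hc : coe k l ≠ 0) (h0 : ev g l = 0) : val g k = 0 := by
  rw [ev_only h] at h0
  have h1 : ((coe k l : ℤ) : ℚ) • val g k = 0 := by
    rw [← h0]
    exact Int.cast_smul_eq_zsmul ℚ _ _
  exact (smul_eq_zero.mp h1).resolve_left (by exact_mod_cast hc)

omit [Module ℚ M] in
lemma kn_or {g : ZMod N → ZMod N → ZMod N → M} {K k : ℕ} (hK : Kn g K) (hk : val g k = 0) :
    Kn g (K ||| 1 <<< k) := by
  intro j hj
  rw [Nat.testBit_or, Bool.or_eq_true] at hj
  rcases hj with hj | hj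
  · exact hK j hj
  · rw [Nat.one_shiftLeft, Nat.testBit_two_pow] at hj
    have : k = j := by simpa using hj
    rw [← this]; exact hk

omit [Module ℚ M] in
lemma ev_sub (f g : ZMod N → ZMod N → ZMod N → M) (l : List (ℕ × ℤ)) :
    ev (fun a b d => f a b d - g a b d) l = ev f l - ev g l := by
  induction l with
  | nil => simp
  | cons p l ih =>
    rw [ev_cons, ev_cons, ev_cons, ih]
    have : val (fun a b d => f a b d - g a b d) p.1 = val f p.1 - val g p.1 := rfl
    rw [this, smul_sub]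
    abel

end Pool.Agent.K4L
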