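import Mathlib

set_option autoImplicit false

/-!
Project K4L: the primes are independent in `F^* ⊗ ℚ`.
-/

namespace Pool.Agent.K4L

open scoped TensorProduct

variable (F : Type*) [Field F] [CharZero F]

/-- the prime `p` as a unit -/
noncomputable def pu (p : Nat.Primes) : Fˣ :=
  Units.mk0 ((p : ℕ) : F) (Nat.cast_ne_zero.mpr p.2.ne_zero)

lemma pv (q : Nat.Primes) (c : Nat.Primes → ℤ) (s : Finset Nat.Primes) :
    (∏ p ∈ s, ((p : ℕ) : ℚ) ^ c p ≠ 0) ∧
      padicValRat (q : ℕ) (∏ p ∈ s, ((p : ℕ) : ℚ) ^ c p) = ∑ p ∈ s, if p = q then c p else 0 := by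
  have : Fact (q : ℕ).Prime := ⟨q.2⟩
  induction s using Finset.induction_on with
  | empty => simp
  | insert a s ha ih =>
    have h1 : ((a : ℕ) : ℚ) ^ c a ≠ 0 := zpow_ne_zero _ (Nat.cast_ne_zero.mpr a.2.ne_zero)
    rw [Finset.prod_insert ha, Finset.sum_insert ha]
    refine ⟨mul_ne_zero h1 ih.1, ?_⟩
    rw [padicValRat.mul h1 ih.1, ih.2, padicValRat.zpow]
    congr 1
    split_ifs with h
    · subst h
      rw [padicValRat.self a.2.one_lt, mul_one]
    · have : padicValRat (q : ℕ) ((a : ℕ) : ℚ) = 0 := by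
        rw [padicValRat.of_nat, Nat.cast_eq_zero]
        refine padicValNat.eq_zero_of_not_dvd fun hd => h ?_
        exact Subtype.ext ((Nat.prime_dvd_prime_iff_eq q.2 a.2).mp hd).symm
      rw [this, mul_zero]

lemma indep_pu : LinearIndependent ℤ fun p : Nat.Primes => Additive.ofMul (pu F p) := by
  rw [linearIndependent_iff']
  intro s c h q hq
  have h1 : ∏ p ∈ s, (pu F p) ^ c p = 1 := by
    have := congrArg Additive.toMul h
    rw [toMul_sum, toMul_zero] at this
    exact this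
  have h2 : (∏ p ∈ s, ((p : ℕ) : ℚ) ^ c p : ℚ) = 1 := by
    have h3 := congrArg (Units.val) h1
    rw [Units.val_one, Units.coe_prod] at h3
    have h4 : ((∏ p ∈ s, ((p : ℕ) : ℚ) ^ c p : ℚ) : F) = ((1 : ℚ) : F) := by
      rw [Rat.cast_one, ← h3, Rat.cast_prod]
      refine Finset.prod_congr rfl fun p _ => ?_
      rw [Units.val_zpow_eq_zpow_val, Rat.cast_zpow, Rat.cast_natCast]
      rfl
    exact Rat.cast_injective h4
  have h5 := (pv q c s).2
  rw [h2, padicValRat.one, Finset.sum_ite_eq' s q, if_pos hq] at h5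
  exact h5.symm

lemma indep_pq : LinearIndependent ℚ
    fun p : Nat.Primes => ((1 : ℚ) ⊗ₜ[ℤ] Additive.ofMul (pu F p) : ℚ ⊗[ℤ] Additive Fˣ) := by
  have : IsLocalizedModule (nonZeroDivisors ℤ) (TensorProduct.mk ℤ ℚ (Additive Fˣ) 1) :=
    (isLocalizedModule_iff_isBaseChange (nonZeroDivisors ℤ) ℚ _).mpr
      (TensorProduct.isBaseChange ℤ (Additive Fˣ) ℚ)
  exact (indep_pu F).of_isLocalizedModule ℚ (nonZeroDivisors ℤ)
    (TensorProduct.mk ℤ ℚ (Additive Fˣ) 1)

/-- `F^* ⊗ ℚ` is not finite-dimensional -/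
theorem exists_out (V : Submodule ℚ (ℚ ⊗[ℤ] Additive Fˣ)) [Module.Finite ℚ V] :
    ∃ s, s ∉ V := by
  by_contra h
  push Not at h
  have hV : V = ⊤ := eq_top_iff.mpr fun x _ => h x
  have : Module.Finite ℚ (⊤ : Submodule ℚ (ℚ ⊗[ℤ] Additive Fˣ)) := hV ▸ inferInstance
  have : Module.Finite ℚ (ℚ ⊗[ℤ] Additive Fˣ) := Module.Finite.equiv Submodule.topEquiv
  have := (indep_pq F).finite
  exact not_finite Nat.Primes

/-- independence of the differences and shifts -/
theorem indep_shift {X : Type*} [AddCommGroup X] [Module ℚ X] {n : ℕ} {w : ℕ → X}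
    (hd : LinearIndependent ℚ fun k : Fin (n - 1) => w (k + 1) - w 0) {s : X}
    (hs : s ∉ Submodule.span ℚ (Set.range fun i : Fin n => w i)) :
    LinearIndependent ℚ fun i : Fin n => w i - s := by
  rcases n with _ | m
  · exact linearIndependent_empty_type
  have hd' : LinearIndependent ℚ fun k : Fin m => w (k + 1) - w 0 := hd
  rw [Fintype.linearIndependent_iff] at hd' ⊢
  intro c hc
  have h1 : ∑ i, c i • w i = (∑ i, c i) • s := by
    rw [Finset.sum_smul, ← sub_eq_zero, ← Finset.sum_sub_distrib, ← hc]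
    exact Finset.sum_congr rfl fun i _ => (smul_sub _ _ _).symm
  have h0 : ∑ i, c i = 0 := by
    by_contra h
    apply hs
    have : s = (∑ i, c i)⁻¹ • ∑ i, c i • w i := by
      rw [h1, smul_smul, inv_mul_cancel₀ h, one_smul]
    rw [this]
    exact Submodule.smul_mem _ _ (Submodule.sum_mem _ fun i _ =>
      Submodule.smul_mem _ _ (Submodule.subset_span ⟨i, rfl⟩))
  have h2 : ∑ k : Fin m, c k.succ • (w (k + 1) - w 0) = 0 := by
    have h3 : ∑ i, c i • (w i - w 0) = 0 := by
      have : ∑ i, c i • (w i - w 0) = ∑ i, c i • w i - (∑ i, c i) • w 0 := by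
        rw [Finset.sum_smul, ← Finset.sum_sub_distrib]
        exact Finset.sum_congr rfl fun i _ => smul_sub _ _ _
      rw [this, h1, h0, zero_smul, zero_smul, sub_zero]
    rw [Fin.sum_univ_succ] at h3
    simpa using h3
  have h4 := hd' _ h2
  rw [Fin.sum_univ_succ] at h0
  intro i
  refine Fin.cases ?_ (fun k => h4 k) i
  simpa [h4] using h0

end Pool.Agent.K4L
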