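import Pool.Agent.Lib_helper7.K4L.Tor
import Pool.Agent.Lib_helper7.K4L.Prm
import Pool.Agent.Lib_helper2.K4.DefsV

set_option autoImplicit false
set_option linter.unusedSectionVars false

/-!
Project K4L: the statements from certificates.
-/

namespace Pool.Agent.MK4

open Pool.Agent.K4L
open scoped TensorProduct

section lift

variable {T : Type*} [AddCommGroup T]

/-- the homomorphism `a ↦ aP` -/
noncomputable def phi (N : ℕ) (P : T) (h : N • P = 0) : ZMod N →+ T :=
  ZMod.lift N ⟨zmultiplesHom T P, by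
    rw [zmultiplesHom_apply, natCast_zsmul]; exact h⟩

lemma phi_int {N : ℕ} {P : T} (h : N • P = 0) (a : ℤ) : phi N P h (a : ZMod N) = a • P := by
  unfold phi
  rw [ZMod.lift_coe]
  rfl

lemma phi_nat {N : ℕ} {P : T} (h : N • P = 0) (a : ℕ) : phi N P h (a : ZMod N) = a • P := by
  have := phi_int h (a : ℤ)
  rw [Int.cast_natCast, natCast_zsmul] at this
  exact this

lemma phi_val {N : ℕ} [NeZero N] {P : T} (h : N • P = 0) (a : ZMod N) :
    phi N P h a = (a.val : ℤ) • P := by
  rw [← phi_int h, Int.cast_natCast, ZMod.natCast_zmod_val]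

lemma ne_of_smul {N : ℕ} {P : T} (h : N • P = 0) {c : ℤ} (hc : c • P ≠ 0) :
    (c : ZMod N) ≠ 0 := fun h0 => hc (by rw [← phi_int h, h0, map_zero])

lemma smul_ne {P : T} {c : ZMod (addOrderOf P)} [NeZero (addOrderOf P)] (hc : c ≠ 0) :
    (c.val : ℤ) • P ≠ 0 := by
  intro h
  rw [natCast_zsmul] at h
  have h1 := addOrderOf_dvd_of_nsmul_eq_zero h
  have h2 : c.val = 0 := Nat.eq_zero_of_dvd_of_lt h1 (ZMod.val_lt c)
  exact hc ((ZMod.val_eq_zero c).mp h2)

end lift

lemma tr_range {N : ℕ} {H : Type*} [AddCommGroup H] (F : ZMod N → H) {UL : List ℕ}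
    (hU : (List.range N).filter (fun u => Nat.Coprime u N) = UL) :
    ∑ u ∈ (Finset.range N).filter (fun u => Nat.Coprime u N), F (u : ZMod N) = tr UL F := by
  rw [← hU]
  unfold tr
  rw [Finset.sum_eq_multiset_sum]
  rfl

variable {F : Type*} [Field F] [CharZero F] [IsAlgClosed F] [DecidableEq F]
  {W : WeierstrassCurve.Affine F}

lemma exists_s {N : ℕ} (_hN : 0 < N) {P : To W} (hP : N • P = 0)
    (hi : Ind (K4M.gT : To W → FT F) N P) :
    ∃ s : K4M.FT F, LinearIndependent ℚ fun i : Fin (N / 2) =>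
      sh (fun a : ZMod N => (K4M.gT (phi N P hP a) : K4M.FT F)) s ((i + 1 : ℕ) : ZMod N) := by
  let w : ℕ → K4M.FT F := fun k => K4M.gT ((k + 1 : ℕ) • P)
  have hd : LinearIndependent ℚ fun k : Fin (N / 2 - 1) => w (k + 1) - w 0 := by
    have e : (fun k : Fin (N / 2 - 1) => w (k + 1) - w 0) =
        fun k : Fin (N / 2 - 1) => (K4M.gT ((k + 2 : ℕ) • P) - K4M.gT P : K4M.FT F) := by
      funext k
      simp only [w, zero_add, one_smul, add_assoc, Nat.reduceAdd]
    rw [e]
    exact hi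
  have : Module.Finite ℚ (Submodule.span ℚ (Set.range fun i : Fin (N / 2) => w i)) :=
    FiniteDimensional.span_of_finite ℚ (Set.finite_range _)
  obtain ⟨s, hs⟩ := exists_out F (Submodule.span ℚ (Set.range fun i : Fin (N / 2) => w i))
  refine ⟨s, ?_⟩
  have key := indep_shift hd hs
  have e : (fun i : Fin (N / 2) =>
      sh (fun a : ZMod N => (K4M.gT (phi N P hP a) : K4M.FT F)) s ((i + 1 : ℕ) : ZMod N)) =
      fun i : Fin (N / 2) => w i - s := by
    funext i
    have hi' := i.2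
    have h0 : ((i + 1 : ℕ) : ZMod N) ≠ 0 := by
      intro h
      rw [ZMod.natCast_eq_zero_iff] at h
      have := Nat.le_of_dvd (by omega) h
      omega
    have h1 : phi N P hP ((i + 1 : ℕ) : ZMod N) = (i + 1 : ℕ) • P := phi_nat hP _
    unfold sh
    rw [if_neg h0]
    show K4M.gT (phi N P hP ((i + 1 : ℕ) : ZMod N)) - s = w i - s
    rw [h1]
  rw [e]
  exact key

lemma ind_le {g : To W → FT F} {M N : ℕ} (h : M ≤ N) {P : To W} (hi : Ind g N P) :
    Ind g M P := by
  have h' : M / 2 - 1 ≤ N / 2 - 1 := by omega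
  exact LinearIndependent.comp hi (Fin.castLE h') (Fin.castLE_injective h')

lemma span_int {N : ℕ} {P : To W} (hP : N • P = 0) (t : To W → To W → K4M.B2 F) {z : K4M.HK F}
    (hz : z ∈ SpT t P) : z ∈ Submodule.span ℚ {y | ∃ (a b : ZMod N) (u : K4M.FT F),
      y = K4M.hkL F (t (phi N P hP a) (phi N P hP b)) u} := by
  refine Submodule.span_mono ?_ hz
  rintro y ⟨a, b, u, rfl⟩
  refine ⟨(a : ZMod N), (b : ZMod N), u, ?_⟩
  simp only [phi_int]
  rfl

lemma diffN (hW : W.Δ ≠ 0) {t : To W → To W → B2 F} (h : HypT hW t) {N : ℕ} {P : To W}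
    (hP : N • P = 0) : IsDiff (N := N) (B := K4M.B2 F) (X := K4M.FT F) (H := K4M.HK F)
      (fun a b => t (phi N P hP a) (phi N P hP b)) (fun a => K4M.gT (phi N P hP a))
      (K4M.hkL F) (K4M.dH F) := by
  intro a b u
  have := diffT hW h.1 h.2 (phi N P hP a) (phi N P hP b) u
  rw [← map_add] at this
  exact this

/-- **Level0.** -/
theorem level0V (hW : W.Δ ≠ 0) {t : To W → To W → B2 F} (h : HypT hW t) {N : ℕ}
    (hN : 0 < N) : Level0 (K4M.gT : To W → FT F) t N := by
  intro P hP' hi' z hz h0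
  have hM : 0 < addOrderOf P := addOrderOf_pos_iff.mpr (isOfFinAddOrder_iff_nsmul_eq_zero.mpr
    ⟨N, hN, hP'⟩)
  have hMN : addOrderOf P ≤ N := Nat.le_of_dvd hN (addOrderOf_dvd_of_nsmul_eq_zero hP')
  have hP : addOrderOf P • P = 0 := addOrderOf_nsmul_eq_zero P
  obtain ⟨s, hs⟩ := exists_s hM hP (ind_le hMN hi')
  have : NeZero (addOrderOf P) := ⟨by omega⟩
  rw [closed_iff] at h0
  have key := closed_dif_s ((dtT hW h).comp (phi _ P hP)) (diffN hW h hP) hs
    (span_int hP t hz) h0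
  refine Submodule.span_mono ?_ key
  rintro y ⟨a, b, c, d, hc, hd, rfl⟩
  refine ⟨(a.val : ℤ), (b.val : ℤ), (c.val : ℤ), (d.val : ℤ), smul_ne hc, smul_ne hd, ?_⟩
  simp only [phi_val hP]
  rfl

/-- **Level1** from a certificate. -/
theorem level1_of (hW : W.Δ ≠ 0) {t : To W → To W → B2 F} (h : HypT hW t) {N : ℕ}
    (hN : 0 < N) {l : List Step} {rows : List ℕ} {reps : List (ℕ × ℕ × ℕ)}
    (hc : check N [1] l rows reps = true) :
    Level1 (K4M.gT : To W → FT F) t (fun a b : To W => hk (t a b) (K4M.gT b - K4M.gT a)) N := by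
  intro P hP hi z hz h0
  obtain ⟨s, hs⟩ := exists_s hN hP hi
  have : NeZero N := ⟨by omega⟩
  rw [closed_iff] at h0
  have key := closed_full_s hc ((dtT hW h).comp (phi _ P hP)) (diffN hW h hP) hs
    (span_int hP t hz) h0
  refine Submodule.span_mono ?_ key
  rintro y ⟨a, b, rfl⟩
  refine ⟨(a.val : ℤ), (b.val : ℤ), ?_⟩
  simp only [phi_val hP]
  rfl

/-- **Level2** from a certificate. -/
theorem level2_of (hW : W.Δ ≠ 0) {t : To W → To W → B2 F} (h : HypT hW t) {N : ℕ}
    (hN : 2 ≤ N) {UL : List ℕ} (hU : (List.range N).filter (fun u => Nat.Coprime u N) = UL)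
    {l : List Step} {rows : List ℕ} {reps : List (ℕ × ℕ × ℕ)}
    (hc : check N UL l rows reps = true) :
    Level2 (K4M.gT : To W → FT F) t (fun a b : To W => hk (t a b) (K4M.gT b - K4M.gT a))
      N := by
  intro P hP hi z hz h0
  obtain ⟨s, hs⟩ := exists_s (by omega) hP hi
  have : NeZero N := ⟨by omega⟩
  rw [closed_iff] at h0
  have hne : UL ≠ [] := by
    intro he
    have h1 : 1 ∈ (List.range N).filter (fun u => Nat.Coprime u N) := by
      rw [List.mem_filter, List.mem_range]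
      exact ⟨by omega, by simp⟩
    rw [hU, he] at h1
    exact absurd h1 List.not_mem_nil
  have hun : ∀ u ∈ UL, IsUnit (u : ZMod N) := by
    intro u hu
    rw [← hU, List.mem_filter] at hu
    rw [ZMod.isUnit_iff_coprime]
    simpa using hu.2
  have key := closed_tr_s hc hne hun ((dtT hW h).comp (phi _ P hP)) (diffN hW h hP) hs (z := z) (by
      refine Submodule.span_mono ?_ hz
      rintro y ⟨a, b, c, d, h1, h2, rfl⟩
      refine ⟨(a : ZMod N), (b : ZMod N), (c : ZMod N), (d : ZMod N), ne_of_smul hP h1,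
        ne_of_smul hP h2, ?_⟩
      rw [← tr_range (N := N) _ hU]
      refine Finset.sum_congr rfl fun u _ => ?_
      have e : ∀ a : ℤ, phi N P hP ((u : ZMod N) * (a : ZMod N)) = ((u : ℤ) * a) • P := by
        intro a
        rw [← phi_int hP, Int.cast_mul, Int.cast_natCast]
      simp only [e]
      rfl) h0
  unfold WW at key
  refine Submodule.span_mono ?_ key
  rintro y ⟨a, b, rfl⟩
  refine ⟨(a.val : ℤ), (b.val : ℤ), ?_⟩
  unfold Xi traceU
  rw [← tr_range (N := N) _ hU]
  refine Finset.sum_congr rfl fun u _ => ?_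
  have e : ∀ a : ZMod N, phi N P hP ((u : ZMod N) * a) = ((u : ℤ) * (a.val : ℤ)) • P := by
    intro a
    rw [← phi_int hP, Int.cast_mul, Int.cast_natCast, Int.cast_natCast, ZMod.natCast_zmod_val]
  simp only [e]
  rfl

end Pool.Agent.MK4
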