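import Pool.Agent.Lib_helper7.K4L.Fin2
import Pool.Agent.Lib_helper7.K4L.CF1
import Pool.Agent.Lib_helper7.K4L.CF2
import Pool.Agent.Lib_helper7.K4L.CF3
import Pool.Agent.Lib_helper7.K4L.CF4
import Pool.Agent.Lib_helper7.K4L.CT1
import Pool.Agent.Lib_helper7.K4L.CT2
import Pool.Agent.Lib_helper7.K4L.CT3
import Pool.Agent.Lib_helper7.K4L.CT4
import Pool.Agent.Lib_helper7.K4L.CT5
import Pool.Agent.Lib_helper7.K4L.CT6
import Pool.Agent.Lib_helper7.K4L.CT7
import Pool.Agent.Lib_helper7.K4L.CT8
import Pool.Agent.Lib_helper7.K4L.CT9

set_option autoImplicit false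

/-!
Project K4L: the levels.
-/

namespace Pool.Agent.MK4

open Pool.Agent.K4L

lemma hu2 : (List.range 2).filter (fun u => Nat.Coprime u 2) = Ut2 := by decide +kernel

lemma hu3 : (List.range 3).filter (fun u => Nat.Coprime u 3) = Ut3 := by decide +kernel

lemma hu4 : (List.range 4).filter (fun u => Nat.Coprime u 4) = Ut4 := by decide +kernel

lemma hu5 : (List.range 5).filter (fun u => Nat.Coprime u 5) = Ut5 := by decide +kernel

lemma hu6 : (List.range 6).filter (fun u => Nat.Coprime u 6) = Ut6 := by decide +kernel

lemma hu7 : (List.range 7).filter (fun u => Nat.Coprime u 7) = Ut7 := by decide +kernel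

lemma hu8 : (List.range 8).filter (fun u => Nat.Coprime u 8) = Ut8 := by decide +kernel

lemma hu9 : (List.range 9).filter (fun u => Nat.Coprime u 9) = Ut9 := by decide +kernel

lemma hu10 : (List.range 10).filter (fun u => Nat.Coprime u 10) = Ut10 := by decide +kernel

lemma hu11 : (List.range 11).filter (fun u => Nat.Coprime u 11) = Ut11 := by decide +kernel

lemma hu12 : (List.range 12).filter (fun u => Nat.Coprime u 12) = Ut12 := by decide +kernel

lemma hu13 : (List.range 13).filter (fun u => Nat.Coprime u 13) = Ut13 := by decide +kernel

lemma hu14 : (List.range 14).filter (fun u => Nat.Coprime u 14) = Ut14 := by decide +kernel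

lemma hu15 : (List.range 15).filter (fun u => Nat.Coprime u 15) = Ut15 := by decide +kernel

lemma hu16 : (List.range 16).filter (fun u => Nat.Coprime u 16) = Ut16 := by decide +kernel

lemma hu17 : (List.range 17).filter (fun u => Nat.Coprime u 17) = Ut17 := by decide +kernel

lemma hu18 : (List.range 18).filter (fun u => Nat.Coprime u 18) = Ut18 := by decide +kernel

lemma hu19 : (List.range 19).filter (fun u => Nat.Coprime u 19) = Ut19 := by decide +kernel

lemma hu20 : (List.range 20).filter (fun u => Nat.Coprime u 20) = Ut20 := by decide +kernel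

lemma hu21 : (List.range 21).filter (fun u => Nat.Coprime u 21) = Ut21 := by decide +kernel

lemma hu22 : (List.range 22).filter (fun u => Nat.Coprime u 22) = Ut22 := by decide +kernel

lemma hu23 : (List.range 23).filter (fun u => Nat.Coprime u 23) = Ut23 := by decide +kernel

lemma hu24 : (List.range 24).filter (fun u => Nat.Coprime u 24) = Ut24 := by decide +kernel

lemma hu25 : (List.range 25).filter (fun u => Nat.Coprime u 25) = Ut25 := by decide +kernel

lemma hu26 : (List.range 26).filter (fun u => Nat.Coprime u 26) = Ut26 := by decide +kernel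

lemma hu27 : (List.range 27).filter (fun u => Nat.Coprime u 27) = Ut27 := by decide +kernel

lemma hu28 : (List.range 28).filter (fun u => Nat.Coprime u 28) = Ut28 := by decide +kernel

lemma hu29 : (List.range 29).filter (fun u => Nat.Coprime u 29) = Ut29 := by decide +kernel

lemma hu30 : (List.range 30).filter (fun u => Nat.Coprime u 30) = Ut30 := by decide +kernel

lemma hu31 : (List.range 31).filter (fun u => Nat.Coprime u 31) = Ut31 := by decide +kernel

lemma hu32 : (List.range 32).filter (fun u => Nat.Coprime u 32) = Ut32 := by decide +kernel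

lemma hu33 : (List.range 33).filter (fun u => Nat.Coprime u 33) = Ut33 := by decide +kernel

lemma hu34 : (List.range 34).filter (fun u => Nat.Coprime u 34) = Ut34 := by decide +kernel

lemma hu35 : (List.range 35).filter (fun u => Nat.Coprime u 35) = Ut35 := by decide +kernel

lemma hu37 : (List.range 37).filter (fun u => Nat.Coprime u 37) = Ut37 := by decide +kernel

lemma hu38 : (List.range 38).filter (fun u => Nat.Coprime u 38) = Ut38 := by decide +kernel

lemma hu39 : (List.range 39).filter (fun u => Nat.Coprime u 39) = Ut39 := by decide +kernel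

lemma hu40 : (List.range 40).filter (fun u => Nat.Coprime u 40) = Ut40 := by decide +kernel

lemma hu41 : (List.range 41).filter (fun u => Nat.Coprime u 41) = Ut41 := by decide +kernel

lemma hu42 : (List.range 42).filter (fun u => Nat.Coprime u 42) = Ut42 := by decide +kernel

lemma hu43 : (List.range 43).filter (fun u => Nat.Coprime u 43) = Ut43 := by decide +kernel

lemma hu44 : (List.range 44).filter (fun u => Nat.Coprime u 44) = Ut44 := by decide +kernel

lemma hu46 : (List.range 46).filter (fun u => Nat.Coprime u 46) = Ut46 := by decide +kernel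

lemma hu47 : (List.range 47).filter (fun u => Nat.Coprime u 47) = Ut47 := by decide +kernel

lemma hu51 : (List.range 51).filter (fun u => Nat.Coprime u 51) = Ut51 := by decide +kernel

lemma hu52 : (List.range 52).filter (fun u => Nat.Coprime u 52) = Ut52 := by decide +kernel

variable {F : Type*} [Field F] [CharZero F] [IsAlgClosed F] [DecidableEq F]
  {W : WeierstrassCurve.Affine F}

/-- **Level1.** -/
theorem level1V (hW : W.Δ ≠ 0) {t : To W → To W → B2 F} (h : HypT hW t) (N : ℕ)
    (hN : 0 < N) (hN' : N ≤ 26 ∧ N ≠ 21 ∧ N ≠ 24 ∨ N = 31) :
    Level1 (K4M.gT : To W → FT F) t (fun a b : To W => hk (t a b) (K4M.gT b - K4M.gT a)) N := by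
  have hN2 : N ≤ 31 := by omega
  rcases Nat.lt_or_ge N 2 with h1 | h2
  · have e : N = 1 := by omega
    subst e
    intro P hP _ z hz _
    rw [one_smul] at hP
    subst hP
    have h3 : SpT t (0 : To W) ≤ ⊥ := by
      refine Submodule.span_le.mpr ?_
      rintro y ⟨a, b, u, rfl⟩
      have h4 : t 0 0 = 0 := self_neg (h.1.swap 0 0)
      have h5 : hk (t (a • (0 : To W)) (b • (0 : To W))) u = 0 := by
        rw [smul_zero, smul_zero, h4]
        exact LinearMap.congr_fun (map_zero (K4M.hkL F)) u
      exact h5
    have h6 : z = 0 := by simpa using h3 hz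
    rw [h6]
    exact Submodule.zero_mem _
  · interval_cases N
    · exact level1_of hW h (by norm_num) cf2
    · exact level1_of hW h (by norm_num) cf3
    · exact level1_of hW h (by norm_num) cf4
    · exact level1_of hW h (by norm_num) cf5
    · exact level1_of hW h (by norm_num) cf6
    · exact level1_of hW h (by norm_num) cf7
    · exact level1_of hW h (by norm_num) cf8
    · exact level1_of hW h (by norm_num) cf9
    · exact level1_of hW h (by norm_num) cf10
    · exact level1_of hW h (by norm_num) cf11
    · exact level1_of hW h (by norm_num) cf12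
    · exact level1_of hW h (by norm_num) cf13
    · exact level1_of hW h (by norm_num) cf14
    · exact level1_of hW h (by norm_num) cf15
    · exact level1_of hW h (by norm_num) cf16
    · exact level1_of hW h (by norm_num) cf17
    · exact level1_of hW h (by norm_num) cf18
    · exact level1_of hW h (by norm_num) cf19
    · exact level1_of hW h (by norm_num) cf20
    · omega
    · exact level1_of hW h (by norm_num) cf22
    · exact level1_of hW h (by norm_num) cf23
    · omega
    · exact level1_of hW h (by norm_num) cf25
    · exact level1_of hW h (by norm_num) cf26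
    · omega
    · omega
    · omega
    · omega
    · exact level1_of hW h (by norm_num) cf31

/-- **Level2.** -/
theorem level2V (hW : W.Δ ≠ 0) {t : To W → To W → B2 F} (h : HypT hW t) (N : ℕ)
    (hN : 0 < N) (hN2 : N ≤ 52) (hN' : N ∉ [36, 45, 48, 49, 50]) :
    Level2 (K4M.gT : To W → FT F) t (fun a b : To W => hk (t a b) (K4M.gT b - K4M.gT a)) N := by
  rcases Nat.lt_or_ge N 2 with h1 | h2
  · have e : N = 1 := by omega
    subst e
    intro P hP _ z hz _
    rw [one_smul] at hP
    subst hP
    have h3 : SpTr (K4M.gT : To W → FT F) t 1 (0 : To W) ≤ ⊥ := by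
      refine Submodule.span_le.mpr ?_
      rintro y ⟨a, b, c, d, h4, h5, rfl⟩
      exact absurd (smul_zero c) h4
    have h6 : z = 0 := by simpa using h3 hz
    rw [h6]
    exact Submodule.zero_mem _
  · interval_cases N
    · exact level2_of hW h (by norm_num) hu2 ct2
    · exact level2_of hW h (by norm_num) hu3 ct3
    · exact level2_of hW h (by norm_num) hu4 ct4
    · exact level2_of hW h (by norm_num) hu5 ct5
    · exact level2_of hW h (by norm_num) hu6 ct6
    · exact level2_of hW h (by norm_num) hu7 ct7
    · exact level2_of hW h (by norm_num) hu8 ct8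
    · exact level2_of hW h (by norm_num) hu9 ct9
    · exact level2_of hW h (by norm_num) hu10 ct10
    · exact level2_of hW h (by norm_num) hu11 ct11
    · exact level2_of hW h (by norm_num) hu12 ct12
    · exact level2_of hW h (by norm_num) hu13 ct13
    · exact level2_of hW h (by norm_num) hu14 ct14
    · exact level2_of hW h (by norm_num) hu15 ct15
    · exact level2_of hW h (by norm_num) hu16 ct16
    · exact level2_of hW h (by norm_num) hu17 ct17
    · exact level2_of hW h (by norm_num) hu18 ct18
    · exact level2_of hW h (by norm_num) hu19 ct19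
    · exact level2_of hW h (by norm_num) hu20 ct20
    · exact level2_of hW h (by norm_num) hu21 ct21
    · exact level2_of hW h (by norm_num) hu22 ct22
    · exact level2_of hW h (by norm_num) hu23 ct23
    · exact level2_of hW h (by norm_num) hu24 ct24
    · exact level2_of hW h (by norm_num) hu25 ct25
    · exact level2_of hW h (by norm_num) hu26 ct26
    · exact level2_of hW h (by norm_num) hu27 ct27
    · exact level2_of hW h (by norm_num) hu28 ct28
    · exact level2_of hW h (by norm_num) hu29 ct29
    · exact level2_of hW h (by norm_num) hu30 ct30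
    · exact level2_of hW h (by norm_num) hu31 ct31
    · exact level2_of hW h (by norm_num) hu32 ct32
    · exact level2_of hW h (by norm_num) hu33 ct33
    · exact level2_of hW h (by norm_num) hu34 ct34
    · exact level2_of hW h (by norm_num) hu35 ct35
    · exact absurd (by decide) hN'
    · exact level2_of hW h (by norm_num) hu37 ct37
    · exact level2_of hW h (by norm_num) hu38 ct38
    · exact level2_of hW h (by norm_num) hu39 ct39
    · exact level2_of hW h (by norm_num) hu40 ct40
    · exact level2_of hW h (by norm_num) hu41 ct41
    · exact level2_of hW h (by norm_num) hu42 ct42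
    · exact level2_of hW h (by norm_num) hu43 ct43
    · exact level2_of hW h (by norm_num) hu44 ct44
    · exact absurd (by decide) hN'
    · exact level2_of hW h (by norm_num) hu46 ct46
    · exact level2_of hW h (by norm_num) hu47 ct47
    · exact absurd (by decide) hN'
    · exact absurd (by decide) hN'
    · exact absurd (by decide) hN'
    · exact level2_of hW h (by norm_num) hu51 ct51
    · exact level2_of hW h (by norm_num) hu52 ct52

end Pool.Agent.MK4
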