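import Pool.Agent.Lib_helper7.K4L.Snd

set_option autoImplicit false

/-!
Project K4L: a system with a certificate is a boundary.
-/

namespace Pool.Agent.K4L

variable {N : ℕ} {UL : List ℕ} {M : Type*} [AddCommGroup M] [Module ℚ M]

lemma clz_le [NeZero N] (a : ZMod N) : clz a < N / 2 + 1 := by
  have h := ZMod.val_lt a
  unfold clz
  rw [cl_eq]
  split_ifs <;> omega

omit [AddCommGroup M] [Module ℚ M] in
lemma g_clz [NeZero N] {g : ZMod N → M} (hg : ∀ d, g (-d) = g d) (d : ZMod N) :
    g (clz d : ℕ) = g d := by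
  rcases clz_cases d with h | h
  · rw [h]
  · rw [h, hg]

/-- the final check kills the system -/
theorem fin_zero [NeZero N] {g : ZMod N → ZMod N → ZMod N → M} (hg : LSys N UL g) {K : ℕ}
    (hK : Kn g K) {rows : List ℕ} {reps : List (ℕ × ℕ × ℕ)} (h : fin N UL K rows reps = true)
    (a b d : ZMod N) : g a b d = 0 := by
  unfold fin at h
  rw [Bool.and_eq_true] at h
  obtain ⟨h1, h2⟩ := h
  have hN := Nat.pos_of_ne_zero (NeZero.ne N)
  have A : ∀ r ∈ reps, ∀ d : ZMod N, g (r.1 : ZMod N) (r.2.1 : ZMod N) d = 0 := by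
    intro r hr d
    rw [List.all_eq_true] at h2
    have h3 := h2 r hr
    rw [List.all_eq_true] at h3
    have h4 := h3 (clz d) (List.mem_range.mpr (clz_le d))
    simp only [Bool.and_eq_true, Bool.or_eq_true, Nat.beq_eq] at h4
    obtain ⟨h5, h6⟩ := h4
    replace h5 := um_mem h5
    rw [← g_clz (hg.evd _ _) d, ← dec_nfu hg h5 r.1 r.2.1 (clz d)]
    unfold dec
    rcases h6 with h6 | h6
    · rw [if_pos h6]
    · rw [tb_eq] at h6
      rw [hK _ h6, smul_zero, ite_self]
  have B : ∀ a b d : ZMod N, a.val < N / 2 + 1 → g a b d = 0 := by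
    intro a b d ha
    rw [List.all_eq_true] at h1
    have h3 := h1 a.val (List.mem_range.mpr ha)
    rw [List.all_eq_true] at h3
    have h4 := h3 b.val (List.mem_range.mpr (ZMod.val_lt b))
    simp only [Bool.or_eq_true, Bool.and_eq_true, List.any_eq_true,
      Nat.beq_eq] at h4
    have ea : ((a.val : ℕ) : ZMod N) = a := ZMod.natCast_zmod_val a
    have eb : ((b.val : ℕ) : ZMod N) = b := ZMod.natCast_zmod_val b
    rcases h4 with h4 | ⟨h5, r, hr, h6, h7⟩
    · have := g_deg hg (ZMod.val_lt a) (ZMod.val_lt b) h4 d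
      rw [ea, eb] at this
      exact this
    · set u := rows.getD a.val 0 / 64 ^ b.val % 64 with hu
      rw [← hg.un u (um_mem h5), ← ea, ← eb, ← Nat.cast_mul, ← Nat.cast_mul,
        ← ZMod.natCast_mod (u * a.val), ← ZMod.natCast_mod (u * b.val)]
      cases hd : deg (u * a.val % N) (u * b.val % N) (c3 N (u * a.val % N) (u * b.val % N))
      · obtain ⟨-, -, -, -, -, -, h8⟩ := ok_tn hg (Nat.mod_lt _ hN) (Nat.mod_lt _ hN) hd
        rw [h8, ← h6, ← h7, A r hr, smul_zero]
      · exact g_deg hg (Nat.mod_lt _ hN) (Nat.mod_lt _ hN) hd _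
  by_cases ha : a.val < N / 2 + 1
  · exact B a b d ha
  · rw [← hg.neg]
    refine B _ _ _ ?_
    rw [ZMod.neg_val]
    have := ZMod.val_lt a
    split_ifs <;> omega

/-- **Main theorem of the checker.** -/
theorem exists_bd [NeZero N] {l : List Step} {rows : List ℕ} {reps : List (ℕ × ℕ × ℕ)}
    (hc : check N UL l rows reps = true) {f : ZMod N → ZMod N → ZMod N → M}
    (hf : LSys N UL f) :
    ∃ s : ZMod N → ZMod N → ZMod N → M, Alt N UL s ∧ ∀ a b d, f a b d = bd s a b d := by
  unfold check at hc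
  rw [Bool.and_eq_true] at hc
  obtain ⟨hg, hc⟩ := hc
  cases hr : run N UL ⟨0, 0, []⟩ l with
  | none => rw [hr] at hc; exact absurd hc Bool.false_ne_true
  | some st =>
    rw [hr] at hc
    obtain ⟨-, s, hs, H⟩ := inv_run hg hf l (inv_init f) hr
    obtain ⟨hK, -⟩ := H s hs (fun _ _ _ _ => rfl) (fun _ _ => rfl)
    refine ⟨s, hs, fun a b d => ?_⟩
    exact sub_eq_zero.mp (fin_zero (hf.sub (LSys.bd hs)) hK hc a b d)

end Pool.Agent.K4L
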