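import Pool.Agent.Lib_helper7.K4L.Clo2

set_option autoImplicit false

/-!
Project K4L: a shift of the units by a constant.
-/

namespace Pool.Agent.K4L

open ExteriorAlgebra

variable {N : ℕ} {UL : List ℕ} {B X H : Type*}
  [AddCommGroup B] [Module ℚ B] [AddCommGroup X] [Module ℚ X]
  [AddCommGroup H] [Module ℚ H]
  {t : ZMod N → ZMod N → B} {g : ZMod N → X} {m : B →ₗ[ℚ] X →ₗ[ℚ] H}

/-- the shifted units -/
def sh (g : ZMod N → X) (s : X) (a : ZMod N) : X := if a = 0 then 0 else g a - s

/-- indicator of `a ≠ 0` -/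
def dl (a : ZMod N) : ℚ := if a = 0 then 0 else 1

lemma sh_eq (g0 : g 0 = 0) (s : X) (a : ZMod N) : sh g s a = g a - dl a • s := by
  unfold sh dl
  by_cases h : a = 0
  · rw [if_pos h, if_pos h, h, g0, zero_smul, sub_zero]
  · rw [if_neg h, if_neg h, one_smul]

omit [Module ℚ X] in
lemma sh_sub (s : X) {c d : ZMod N} (hc : c ≠ 0) (hd : d ≠ 0) :
    sh g s c - sh g s d = g c - g d := by
  unfold sh
  rw [if_neg hc, if_neg hd]
  abel

lemma dl_t (D : Dt t g m) (a b : ZMod N) : dl b • t a b = dl a • t a b := by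
  have := (lsys_t D).xi a b
  unfold dl
  by_cases h : a = 0 <;> by_cases h' : b = 0 <;> simp [h, h'] at this ⊢ <;> simp [this]

lemma sh_t (D : Dt t g m) (s : X) (a b : ZMod N) :
    m (t a b) (sh g s b - sh g s a) = m (t a b) (g b - g a) := by
  rw [sh_eq D.zero, sh_eq D.zero]
  have h1 : m (dl b • t a b) s = m (dl a • t a b) s := by rw [dl_t D]
  rw [map_smul, map_smul, LinearMap.smul_apply, LinearMap.smul_apply] at h1
  simp only [map_sub, map_smul]
  rw [h1]
  abel

theorem Dt.shift (D : Dt t g m) (s : X) : Dt t (sh g s) m where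
  swap := D.swap
  rot := D.rot
  even := D.even
  zero := if_pos rfl
  geven a := by
    unfold sh
    simp only [neg_eq_zero, D.geven]
  r4 x y z w hs := by
    have h := D.r4 x y z w hs
    have e1 := (lsys_t D).r4 x y z w hs
    have hl : ∀ a b d : ZMod N, (if d = 0 then (0 : B) else t a b) = dl d • t a b := by
      intro a b d
      unfold dl
      by_cases h : d = 0
      · rw [if_pos h, if_pos h, zero_smul]
      · rw [if_neg h, if_neg h, one_smul]
    simp only [hl] at e1
    have e2 : m (dl w • t x y - dl z • t x y + dl y • t z w - dl x • t z w + dl x • t y z -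
        dl w • t y z + dl z • t w x - dl y • t w x) s = 0 := by
      rw [e1, map_zero, LinearMap.zero_apply]
    simp only [map_add, map_sub, map_smul, LinearMap.add_apply, LinearMap.sub_apply,
      LinearMap.smul_apply] at e2
    rw [sh_t D, sh_t D, sh_t D, sh_t D, sh_t D, sh_t D]
    simp only [sh_eq D.zero, map_sub, map_smul] at h ⊢
    linear_combination (norm := module) h - e2

theorem IsDiff.shift (Dd : Dt t g m) {D : H →ₗ[ℚ] ExteriorAlgebra ℚ X} (hD : IsDiff t g m D)
    (s : X) : IsDiff t (sh g s) m D := by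
  intro a b u
  rw [hD]
  congr 1
  have sq : ∀ x : X, ι ℚ x * ι ℚ x = 0 := fun x => ι_sq_zero x
  have an : ∀ x y : X, ι ℚ y * ι ℚ x = - (ι ℚ x * ι ℚ y) := fun x y => by
    have h : ι ℚ x * ι ℚ y + ι ℚ y * ι ℚ x = 0 := ι_add_mul_swap x y
    exact eq_neg_of_add_eq_zero_right h
  by_cases ha : a = 0
  · subst ha
    simp only [zero_add, Dd.zero, (Dd.shift s).zero, map_zero, zero_mul, mul_zero, add_zero, sq]
  by_cases hb : b = 0
  · subst hb
    simp only [add_zero, Dd.zero, (Dd.shift s).zero, map_zero, zero_mul, mul_zero, sq]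
  by_cases hc : a + b = 0
  · have hb' : b = -a := by linear_combination hc
    rw [hb']
    simp only [Dd.geven, (Dd.shift s).geven, add_neg_cancel, Dd.zero, (Dd.shift s).zero,
      map_zero, mul_zero, zero_mul, add_zero, sq]
  unfold sh
  rw [if_neg ha, if_neg hb, if_neg hc]
  simp only [map_sub, mul_sub, sub_mul, sq]
  rw [an (g b) s, an (g a) s, an (g (a + b)) s]
  abel

/-- **Closed elements, arbitrary second factors.** -/
theorem closed_full_s [NeZero N] {l : List Step} {rows : List ℕ}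
    {reps : List (ℕ × ℕ × ℕ)} (hc : check N [1] l rows reps = true) (Dd : Dt t g m)
    {D : H →ₗ[ℚ] ExteriorAlgebra ℚ X} (hD : IsDiff t g m D) {s : X}
    (hi : LinearIndependent ℚ fun i : Fin (N / 2) => sh g s ((i + 1 : ℕ) : ZMod N)) {z : H}
    (hz : z ∈ Submodule.span ℚ {y | ∃ (a b : ZMod N) (u : X), y = m (t a b) u}) (h0 : D z = 0) :
    z ∈ Submodule.span ℚ {y | ∃ a b : ZMod N, y = m (t a b) (g b - g a)} := by
  have := closed_full hc (Dd.shift s) (hD.shift Dd s) hi hz h0
  unfold WW at this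
  simp only [Xi_one, sh_t Dd] at this
  exact this

/-- **Closed elements have modular units as second factors.** -/
theorem closed_dif_s [NeZero N] (Dd : Dt t g m)
    {D : H →ₗ[ℚ] ExteriorAlgebra ℚ X} (hD : IsDiff t g m D) {s : X}
    (hi : LinearIndependent ℚ fun i : Fin (N / 2) => sh g s ((i + 1 : ℕ) : ZMod N)) {z : H}
    (hz : z ∈ Submodule.span ℚ {y | ∃ (a b : ZMod N) (u : X), y = m (t a b) u}) (h0 : D z = 0) :
    z ∈ WD t g m := by
  have := closed_dif (Dd.shift s) (hD.shift Dd s) hi hz h0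
  unfold WD at this ⊢
  refine Submodule.span_mono ?_ this
  rintro y ⟨a, b, c, d, h1, h2, rfl⟩
  exact ⟨a, b, c, d, h1, h2, by rw [sh_sub s h1 h2]⟩

/-- **Closed traced elements.** -/
theorem closed_tr_s [NeZero N] {l : List Step} {rows : List ℕ} {reps : List (ℕ × ℕ × ℕ)}
    (hc : check N UL l rows reps = true) (hne : UL ≠ []) (hun : ∀ u ∈ UL, IsUnit (u : ZMod N))
    (Dd : Dt t g m) {D : H →ₗ[ℚ] ExteriorAlgebra ℚ X} (hD : IsDiff t g m D) {s : X}
    (hi : LinearIndependent ℚ fun i : Fin (N / 2) => sh g s ((i + 1 : ℕ) : ZMod N)) {z : H}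
    (hz : z ∈ Submodule.span ℚ {y | ∃ a b c d : ZMod N, c ≠ 0 ∧ d ≠ 0 ∧
      y = tr UL fun u => m (t (u * a) (u * b)) (g (u * c) - g (u * d))}) (h0 : D z = 0) :
    z ∈ WW UL t g m := by
  have hu : ∀ u ∈ UL, ∀ a : ZMod N, a ≠ 0 → (u : ZMod N) * a ≠ 0 := by
    intro u h a ha h2
    exact ha ((hun u h).mul_right_eq_zero.mp h2)
  have key := closed_tr hc hne (Dd.shift s) (hD.shift Dd s) hi (z := z) (by
    refine Submodule.span_le.mpr ?_ hz
    rintro y ⟨a, b, c, d, h1, h2, rfl⟩
    have e : (tr UL fun u => m (t (u * a) (u * b)) (g (u * c) - g (u * d))) =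
        Sy UL t (sh g s) m a b c - Sy UL t (sh g s) m a b d := by
      unfold Sy
      rw [← tr_sub]
      unfold tr
      congr 1
      refine List.map_congr_left fun u h => ?_
      show m _ _ = m _ _ - m _ _
      rw [← map_sub, sh_sub s (hu u h c h1) (hu u h d h2)]
    rw [e]
    exact Submodule.sub_mem _ (Submodule.subset_span ⟨a, b, c, rfl⟩)
      (Submodule.subset_span ⟨a, b, d, rfl⟩)) h0
  unfold WW at key ⊢
  refine Submodule.span_mono ?_ key
  rintro y ⟨a, b, rfl⟩
  refine ⟨a, b, ?_⟩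
  unfold Xi
  congr 1
  funext u
  exact sh_t Dd s _ _

end Pool.Agent.K4L
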