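import Pool.Agent.Lib_helper7.K4L.Chi

set_option autoImplicit false

/-!
Project K4L: soundness of the steps.
-/

namespace Pool.Agent.K4L

variable {N : ℕ} {UL : List ℕ} {M : Type*} [AddCommGroup M] [Module ℚ M]

/-- first entry of a key -/
def kA (N k : ℕ) : ZMod N := ((k / (N * N) : ℕ) : ZMod N)

/-- second entry of a key -/
def kB (N k : ℕ) : ZMod N := ((k / N % N : ℕ) : ZMod N)

/-- last entry of a key -/
def kD (N k : ℕ) : ZMod N := ((k % N : ℕ) : ZMod N)

lemma c3_key [NeZero N] (k : ℕ) :
    ((c3 N (k / (N * N) % N) (k / N % N) : ℕ) : ZMod N) = -kA N k - kB N k := by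
  have hN := Nat.pos_of_ne_zero (NeZero.ne N)
  rw [c3_cast (Nat.mod_lt _ hN) (Nat.mod_lt _ hN), ZMod.natCast_mod]
  rfl

omit [Module ℚ M] in
lemma val_bd (s : ZMod N → ZMod N → ZMod N → M) (k : ℕ) : val (bd s) k =
    s (kA N k) (kB N k) (kD N k) + s (kB N k) (-kA N k - kB N k) (kD N k) +
      s (-kA N k - kB N k) (kA N k) (kD N k) := rfl

lemma bchi_eq [NeZero N] (p q r k : ℕ) : bchi N UL p q r k =
    chiz UL p q r (kA N k) (kB N k) (kD N k) +
      chiz UL p q r (kB N k) (-kA N k - kB N k) (kD N k) +
      chiz UL p q r (-kA N k - kB N k) (kA N k) (kD N k) := by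
  unfold bchi
  rw [chi_eq, chi_eq, chi_eq, c3_key]
  rfl

lemma bkap_eq [NeZero N] (k : ℕ) : bkap N UL k =
    [kapz UL (kA N k) (kB N k) (kD N k), kapz UL (kB N k) (-kA N k - kB N k) (kD N k),
      kapz UL (-kA N k - kB N k) (kA N k) (kD N k)] := by
  unfold bkap
  rw [kap_eq, kap_eq, kap_eq, c3_key]
  rfl

omit [Module ℚ M] in
/-- functions which agree on `T` have the same boundary at keys with invariants in `T` -/
lemma val_bd_congr [NeZero N] {s t : ZMod N → ZMod N → ZMod N → M} {T k : ℕ}
    (h : ∀ a b c, tb T (kapz UL a b c) = true → s a b c = t a b c)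
    (hk : ∀ x ∈ bkap N UL k, tb T x = true) : val (bd s) k = val (bd t) k := by
  rw [bkap_eq] at hk
  simp only [List.mem_cons, forall_eq_or_imp] at hk
  rw [val_bd, val_bd, h _ _ _ hk.1, h _ _ _ hk.2.1, h _ _ _ hk.2.2.1]

omit [Module ℚ M] in
lemma val_add (s t : ZMod N → ZMod N → ZMod N → M) (k : ℕ) :
    val (bd fun a b c => s a b c + t a b c) k = val (bd s) k + val (bd t) k := by
  rw [val_bd, val_bd, val_bd]; abel

omit [Module ℚ M] in
lemma val_chiz [NeZero N] (p q r k : ℕ) (m : M) :
    val (bd fun a b c : ZMod N => chiz UL p q r a b c • m) k = bchi N UL p q r k • m := by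
  rw [val_bd, bchi_eq, add_smul, add_smul]

omit [Module ℚ M] in
lemma ev_add_chiz [NeZero N] (s : ZMod N → ZMod N → ZMod N → M) (p q r : ℕ) (m : M)
    (e : List (ℕ × ℤ)) :
    ev (bd fun a b c => s a b c + chiz UL p q r a b c • m) e =
      ev (bd s) e + bchiL N UL p q r e • m := by
  induction e with
  | nil => simp [bchiL]
  | cons x e ih =>
    rw [ev_cons, ev_cons, ih, val_add, val_chiz]
    have : bchiL N UL p q r (x :: e) = x.2 * bchi N UL p q r x.1 + bchiL N UL p q r e := rfl
    rw [this, add_smul, smul_add, mul_smul]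
    abel

/-- the boundary vanishes off the orbit -/
lemma bchi_zero [NeZero N] (hg : grp N UL = true) {p q r k : ℕ}
    (h : kap N UL p q r ∉ bkap N UL k) : bchi N UL p q r k = 0 := by
  rw [bkap_eq, kap_eq] at h
  simp only [List.mem_cons, not_or] at h
  have key : ∀ a b c : ZMod N, kapz UL (p : ZMod N) (q : ZMod N) (r : ZMod N) ≠ kapz UL a b c →
      chiz UL p q r a b c = 0 := by
    intro a b c hne
    by_contra hc
    exact hne (kapz_of_chiz hg hc).symm
  rw [bchi_eq, key _ _ _ h.1, key _ _ _ h.2.1, key _ _ _ h.2.2.1]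
  ring

lemma bchiL_zero [NeZero N] (hg : grp N UL = true) {p q r : ℕ} {e : List (ℕ × ℤ)} {T : ℕ}
    (he : ∀ x ∈ e, ∀ y ∈ bkap N UL x.1, tb T y = true)
    (h : ¬ tb T (kap N UL p q r) = true) :
    bchiL N UL p q r e = 0 := by
  induction e with
  | nil => rfl
  | cons x e ih =>
    have : bchiL N UL p q r (x :: e) = x.2 * bchi N UL p q r x.1 + bchiL N UL p q r e := rfl
    rw [this, ih (fun y hy => he y (List.mem_cons_of_mem _ hy)),
      bchi_zero hg (fun hh => h (he x List.mem_cons_self _ hh))]
    ring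

/-- the invariant of a state -/
def Inv (UL : List ℕ) (f : ZMod N → ZMod N → ZMod N → M) (st : St) : Prop :=
  (∀ e ∈ st.E, ∀ x ∈ e.1, ∀ y ∈ bkap N UL x.1, tb e.2 y = true) ∧
  ∃ s : ZMod N → ZMod N → ZMod N → M, Alt N UL s ∧
    ∀ s', Alt N UL s' →
      (∀ a b c, tb st.S (kapz UL a b c) = true → s' a b c = s a b c) →
      (∀ e ∈ st.E, ev (bd s') e.1 = ev (bd s) e.1) →
      Kn (fun a b d => f a b d - bd s' a b d) st.K ∧
        ∀ e ∈ st.E, ev (fun a b d => f a b d - bd s' a b d) e.1 = 0

/-- adding a known element which follows from the relations -/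
lemma inv_known {f : ZMod N → ZMod N → ZMod N → M} (hf : LSys N UL f) {st : St}
    (h : Inv UL f st) {k : ℕ}
    (hk : ∀ g : ZMod N → ZMod N → ZMod N → M, LSys N UL g → Kn g st.K →
      (∀ e ∈ st.E, ev g e.1 = 0) → val g k = 0) :
    Inv UL f ⟨st.K ||| 1 <<< k, st.S, st.E⟩ := by
  obtain ⟨hE, s, hs, H⟩ := h
  refine ⟨hE, s, hs, fun s' hs' h1 h2 => ?_⟩
  obtain ⟨h3, h4⟩ := H s' hs' h1 h2
  exact ⟨kn_or h3 (hk _ (hf.sub (LSys.bd hs')) h3 h4), h4⟩

lemma newO_iff {st : St} {p q r k : ℕ} (h : newO N UL st p q r k = true) :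
    0 < p ∧ p < q ∧ q < r ∧ ¬ tb st.S k = true ∧
      ∀ e ∈ st.E, ¬ tb e.2 k = true ∨ bchiL N UL p q r e.1 = 0 := by
  unfold newO at h
  simp only [Bool.and_eq_true, Nat.blt_eq, Bool.not_eq_true', List.all_eq_true,
    Bool.or_eq_true, decide_eq_true_eq] at h
  obtain ⟨⟨⟨⟨h1, h2⟩, h3⟩, h4⟩, h5⟩ := h
  refine ⟨h1, h2, h3, fun hh => ?_, fun e he => ?_⟩
  · rw [h4] at hh
    exact absurd hh (by decide)
  · rcases h5 e he with h6 | h6
    · left
      intro hh
      rw [h6] at hh
      exact absurd hh (by decide)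
    · right; exact h6

/-- the common part of the steps `D` and `E` -/
lemma inv_new [NeZero N] (hg : grp N UL = true) {f : ZMod N → ZMod N → ZMod N → M} {st : St}
    (h : Inv UL f st) {p q r : ℕ} (hn : newO N UL st p q r (kap N UL p q r) = true)
    {e : List (ℕ × ℤ)} (he : bchiL N UL p q r e ≠ 0) :
    ∃ s : ZMod N → ZMod N → ZMod N → M, Alt N UL s ∧
      ev (fun a b d => f a b d - bd s a b d) e = 0 ∧
      ∀ s', Alt N UL s' →
        (∀ a b c, tb st.S (kapz UL a b c) = true → s' a b c = s a b c) →
        (∀ e ∈ st.E, ev (bd s') e.1 = ev (bd s) e.1) →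
        Kn (fun a b d => f a b d - bd s' a b d) st.K ∧
          ∀ e ∈ st.E, ev (fun a b d => f a b d - bd s' a b d) e.1 = 0 := by
  obtain ⟨hE, s, hs, H⟩ := h
  obtain ⟨hp, hq, hr, h1, h2⟩ := newO_iff hn
  set m : M := ((bchiL N UL p q r e : ℤ) : ℚ)⁻¹ • ev (fun a b d => f a b d - bd s a b d) e
    with hm
  have hχ := alt_chiz hg hp hq hr m
  refine ⟨fun a b c => s a b c + chiz UL p q r a b c • m, ?_, ?_, ?_⟩
  · exact ⟨fun a b c => by rw [hs.s1, hχ.s1]; abel, fun a b c => by rw [hs.s2, hχ.s2]; abel,
      fun a b c => by rw [hs.ev, hχ.ev], fun b c => by rw [hs.z, hχ.z, add_zero],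
      fun u hu a b c => by rw [hs.un u hu, hχ.un u hu]⟩
  · have e1 := ev_sub f (bd fun a b c => s a b c + chiz UL p q r a b c • m) e
    rw [ev_add_chiz] at e1
    rw [e1]
    have e2 := ev_sub f (bd s) e
    have e3 : bchiL N UL p q r e • m = ev (fun a b d => f a b d - bd s a b d) e := by
      rw [hm, ← Int.cast_smul_eq_zsmul ℚ, smul_smul, mul_inv_cancel₀ (by exact_mod_cast he),
        one_smul]
    rw [e3, e2]
    abel
  · intro s' hs' h3 h4
    refine H s' hs' ?_ ?_
    · intro a b c hk
      rw [h3 a b c hk]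
      have : chiz UL p q r a b c = 0 := by
        by_contra hc
        apply h1
        rw [kap_eq, ← kapz_of_chiz hg hc]
        exact hk
      show s a b c + chiz UL p q r a b c • m = s a b c
      rw [this, zero_smul, add_zero]
    · intro e' he'
      rw [h4 e' he', ev_add_chiz]
      have : bchiL N UL p q r e'.1 = 0 := by
        rcases h2 e' he' with h5 | h5
        · exact bchiL_zero hg (hE e' he') h5
        · exact h5
      rw [this, zero_smul, add_zero]

omit [AddCommGroup M] [Module ℚ M] in
lemma mem_bkapL {e : List (ℕ × ℤ)} {x : ℕ × ℤ} (hx : x ∈ e) {y : ℕ}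
    (hy : y ∈ bkap N UL x.1) : tb (bkapL N UL e) y = true := by
  induction e with
  | nil => exact absurd hx List.not_mem_nil
  | cons z e ih =>
    have : bkapL N UL (z :: e) = adds (bkap N UL z.1) (bkapL N UL e) := rfl
    rw [this]
    rcases List.mem_cons.mp hx with h | h
    · exact adds_mem (Or.inl (by rw [← h]; exact hy))
    · exact adds_mem (Or.inr (ih h))

theorem inv_step [NeZero N] (hg : grp N UL = true) {f : ZMod N → ZMod N → ZMod N → M}
    (hf : LSys N UL f) {st st' : St} (h : Inv UL f st) {x : Step}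
    (hx : step N UL st x = some st') : Inv UL f st' := by
  cases x with
  | T k u =>
    unfold step at hx
    cases hc : (tb (um UL) u && Nat.beq (nfu N u (k / (N * N)) (k / N % N) (k % N)) (2 * k + 1))
    · simp only [hc, cond_false] at hx
      exact absurd hx (by simp)
    · simp only [hc, cond_true, Option.some.injEq] at hx
      rw [← hx]
      rw [Bool.and_eq_true, Nat.beq_eq] at hc
      obtain ⟨h1, h2⟩ := hc
      replace h1 := um_mem h1
      refine inv_known hf h fun g hg' _ _ => ?_
      have h3 := dec_nfu hg' h1 (k / (N * N)) (k / N % N) (k % N)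
      rw [h2] at h3
      unfold dec at h3
      rw [if_neg (by omega), show (2 * k + 1) / 2 = k by omega] at h3
      have h4 : sgn (2 * k + 1) = -1 := by
        unfold sgn
        rw [if_neg (by omega)]
      rw [h4, neg_one_zsmul] at h3
      exact self_neg h3.symm
  | D k p q r =>
    unfold step at hx
    cases hc : (newO N UL st p q r (kap N UL p q r) && decide (bchi N UL p q r k ≠ 0))
    · simp only [hc, cond_false] at hx
      exact absurd hx (by simp)
    · simp only [hc, cond_true, Option.some.injEq] at hx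
      rw [← hx]
      rw [Bool.and_eq_true, decide_eq_true_eq] at hc
      have hb : bchiL N UL p q r [(k, 1)] ≠ 0 := by
        have : bchiL N UL p q r [(k, 1)] = bchi N UL p q r k := by simp [bchiL]
        rw [this]; exact hc.2
      obtain ⟨s, hs, h0, H⟩ := inv_new hg h hc.1 hb
      refine ⟨h.1, s, hs, fun s' hs' h1 h2 => ?_⟩
      obtain ⟨h3, h4⟩ := H s' hs' (fun a b c hk => h1 a b c (adds_mem (Or.inr hk))) h2
      refine ⟨kn_or h3 ?_, h4⟩
      have e1 : val (bd s') k = val (bd s) k :=
        val_bd_congr h1 fun x hx => adds_mem (Or.inl hx)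
      have e2 : val (fun a b d => f a b d - bd s' a b d) k = val f k - val (bd s') k := rfl
      have e3 : ev (fun a b d => f a b d - bd s a b d) [(k, 1)] = val f k - val (bd s) k := by
        rw [ev_cons, ev_nil, add_zero, one_smul]; rfl
      rw [e2, e1, ← e3, h0]
  | E e p q r =>
    unfold step at hx
    cases hc : (newO N UL st p q r (kap N UL p q r) && decide (bchiL N UL p q r e ≠ 0))
    · simp only [hc, cond_false] at hx
      exact absurd hx (by simp)
    · simp only [hc, cond_true, Option.some.injEq] at hx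
      rw [← hx]
      rw [Bool.and_eq_true, decide_eq_true_eq] at hc
      obtain ⟨s, hs, h0, H⟩ := inv_new hg h hc.1 hc.2
      refine ⟨?_, s, hs, fun s' hs' h1 h2 => ?_⟩
      · intro e' he' x hx' y hy
        rcases List.mem_cons.mp he' with h5 | h5
        · rw [h5] at hx' ⊢
          exact mem_bkapL hx' hy
        · exact h.1 e' h5 x hx' y hy
      · obtain ⟨h3, h4⟩ := H s' hs' h1 (fun e he => h2 e (List.mem_cons_of_mem _ he))
        refine ⟨h3, fun e' he' => ?_⟩
        rcases List.mem_cons.mp he' with h5 | h5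
        · have h6 := h2 (e, bkapL N UL e) List.mem_cons_self
          rw [h5]
          simp only at h6 ⊢
          rw [ev_sub f (bd s') e, h6, ← ev_sub f (bd s) e, h0]
        · exact h4 e' h5
  | R k r v =>
    unfold step at hx
    cases hc : (okv UL v && (fun l => only k l && decide (coe k l ≠ 0))
      (addR N st.K (1, r, v) []))
    · simp only [hc, cond_false] at hx
      exact absurd hx (by simp)
    · simp only [hc, cond_true, Option.some.injEq] at hx
      rw [← hx]
      simp only [Bool.and_eq_true, decide_eq_true_eq] at hc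
      obtain ⟨h1, h2, h3⟩ := hc
      refine inv_known hf h fun g hg' hK _ => val_of_only h2 h3 ?_
      exact (ev_addR hg' hK (1, r, v) h1 []).trans (ev_nil g)
  | C k rs es =>
    unfold step at hx
    cases hc : ((rs.all fun p => okv UL p.2.2) && (fun l => only k l && decide (coe k l ≠ 0))
      (es.foldr (fun p l => addL st.K p.1 (st.E.getD p.2 ([], 0)).1 l)
        (rs.foldr (fun p l => addR N st.K p l) [])))
    · simp only [hc, cond_false] at hx
      exact absurd hx (by simp)
    · simp only [hc, cond_true, Option.some.injEq] at hx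
      rw [← hx]
      simp only [Bool.and_eq_true, decide_eq_true_eq, List.all_eq_true] at hc
      obtain ⟨h1, h2, h3⟩ := hc
      refine inv_known hf h fun g hg' hK hE => val_of_only h2 h3 ?_
      have e1 : ∀ rs : List (ℤ × ℕ × ℕ), (∀ p ∈ rs, okv UL p.2.2 = true) →
          ev g (rs.foldr (fun p l => addR N st.K p l) []) = 0 := by
        intro rs
        induction rs with
        | nil => intro _; rfl
        | cons p rs ih =>
          intro hr
          rw [List.foldr_cons, ev_addR hg' hK p (hr p List.mem_cons_self),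
            ih fun q hq => hr q (List.mem_cons_of_mem _ hq)]
      have e2 : ∀ (es : List (ℤ × ℕ)) (l : List (ℕ × ℤ)),
          ev g (es.foldr (fun p l => addL st.K p.1 (st.E.getD p.2 ([], 0)).1 l) l) = ev g l := by
        intro es l
        induction es with
        | nil => rfl
        | cons p es ih =>
          rw [List.foldr_cons, ev_addL hK, ih]
          have : ev g (st.E.getD p.2 ([], 0)).1 = 0 := by
            by_cases hl : p.2 < st.E.length
            · rw [List.getD_eq_getElem _ _ hl]
              exact hE _ (List.getElem_mem hl)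
            · rw [List.getD_eq_default _ _ (by omega)]
              rfl
          rw [this, smul_zero, zero_add]
      rw [e2, e1 rs h1]

theorem inv_run [NeZero N] (hg : grp N UL = true) {f : ZMod N → ZMod N → ZMod N → M}
    (hf : LSys N UL f) (l : List Step) {st st' : St} (h : Inv UL f st)
    (hx : run N UL st l = some st') : Inv UL f st' := by
  induction l generalizing st with
  | nil =>
    unfold run at hx
    rw [← Option.some.inj hx]; exact h
  | cons x l ih =>
    unfold run at hx
    cases hs : step N UL st x with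
    | none => rw [hs] at hx; exact absurd hx (by simp)
    | some s1 =>
      rw [hs] at hx
      exact ih (inv_step hg hf h hs) hx

omit [Module ℚ M] in
lemma inv_init (f : ZMod N → ZMod N → ZMod N → M) : Inv UL f ⟨0, 0, []⟩ := by
  refine ⟨fun e he => absurd he List.not_mem_nil, fun _ _ _ => 0,
    ⟨fun _ _ _ => neg_zero.symm, fun _ _ _ => neg_zero.symm, fun _ _ _ => rfl, fun _ _ => rfl,
      fun _ _ _ _ _ => rfl⟩, fun s' _ _ _ => ⟨fun k hk => ?_, fun e he =>
        absurd he List.not_mem_nil⟩⟩
  rw [Nat.zero_testBit] at hk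
  exact absurd hk (by decide)

end Pool.Agent.K4L
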