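import Mathlib
import Pool.Agent.Lib_helper7.K4L.Chk

set_option autoImplicit false

/-!
Project K4L: the systems and the normal form.
-/

namespace Pool.Agent.K4L

variable {N : ℕ} {UL : List ℕ} {M : Type*} [AddCommGroup M] [Module ℚ M]

/-- the relations of the `t(a,b) ⊗ g_d` modulo the `ξ`, invariant under `UL` -/
structure LSys (N : ℕ) (UL : List ℕ) (f : ZMod N → ZMod N → ZMod N → M) : Prop where
  sw : ∀ a b d, f b a d = - f a b d
  rot : ∀ a b d, f b (-a - b) d = f a b d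
  neg : ∀ a b d, f (-a) (-b) d = f a b d
  evd : ∀ a b d, f a b (-d) = f a b d
  zd : ∀ a b, f a b 0 = 0
  xi : ∀ a b, f a b a = f a b b
  un : ∀ u ∈ UL, ∀ a b d : ZMod N, f (u * a) (u * b) (u * d) = f a b d
  r4 : ∀ x y z w, x + y + z + w = 0 →
    f x y w - f x y z + f z w y - f z w x + f y z x - f y z w + f w x z - f w x y = 0

/-- alternating functions, even in each variable, invariant under `UL` -/
structure Alt (N : ℕ) (UL : List ℕ) (s : ZMod N → ZMod N → ZMod N → M) : Prop where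
  s1 : ∀ a b c, s b a c = - s a b c
  s2 : ∀ a b c, s a c b = - s a b c
  ev : ∀ a b c, s (-a) b c = s a b c
  z : ∀ b c, s 0 b c = 0
  un : ∀ u ∈ UL, ∀ a b c : ZMod N, s (u * a) (u * b) (u * c) = s a b c

/-- the boundary -/
def bd (s : ZMod N → ZMod N → ZMod N → M) (a b d : ZMod N) : M :=
  s a b d + s b (-a - b) d + s (-a - b) a d

omit [Module ℚ M] in
lemma Alt.ev2 {s : ZMod N → ZMod N → ZMod N → M} (h : Alt N UL s) (a b c : ZMod N) :
    s a (-b) c = s a b c := by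
  rw [h.s1, h.ev, h.s1, neg_neg]

omit [Module ℚ M] in
lemma Alt.ev3 {s : ZMod N → ZMod N → ZMod N → M} (h : Alt N UL s) (a b c : ZMod N) :
    s a b (-c) = s a b c := by
  rw [h.s2, h.ev2, h.s2, neg_neg]

omit [Module ℚ M] in
lemma Alt.z3 {s : ZMod N → ZMod N → ZMod N → M} (h : Alt N UL s) (a b : ZMod N) :
    s a b 0 = 0 := by
  rw [h.s2, h.s1, h.z, neg_zero, neg_zero]

omit [Module ℚ M] in
/-- cyclic -/
lemma Alt.cyc {s : ZMod N → ZMod N → ZMod N → M} (h : Alt N UL s) (a b c : ZMod N) :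
    s b c a = s a b c := by
  rw [h.s2, h.s1, neg_neg]

omit [Module ℚ M] in
lemma Alt.s13 {s : ZMod N → ZMod N → ZMod N → M} (h : Alt N UL s) (a b c : ZMod N) :
    s c b a = - s a b c := by
  rw [h.s1, h.s2, h.s1, neg_neg]

lemma self_neg {x : M} (h : x = -x) : x = 0 := by
  have h2 : (2 : ℚ) • x = 0 := by
    rw [two_smul]; nth_rewrite 1 [h]; abel
  exact (smul_eq_zero.mp h2).resolve_left two_ne_zero

lemma Alt.d12 {s : ZMod N → ZMod N → ZMod N → M} (h : Alt N UL s) (a c : ZMod N) :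
    s a a c = 0 := self_neg (h.s1 a a c)

lemma Alt.d23 {s : ZMod N → ZMod N → ZMod N → M} (h : Alt N UL s) (a c : ZMod N) :
    s c a a = 0 := self_neg (h.s2 c a a)

lemma Alt.d13 {s : ZMod N → ZMod N → ZMod N → M} (h : Alt N UL s) (a c : ZMod N) :
    s a c a = 0 := by
  rw [h.s2, h.d12, neg_zero]

lemma LSys.bd {s : ZMod N → ZMod N → ZMod N → M} (h : Alt N UL s) : LSys N UL (bd s) where
  sw a b d := by
    unfold K4L.bd
    rw [show -b - a = -a - b by ring, h.s1 a b d, h.s1 (-a - b) a d, h.s1 b (-a - b) d]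
    abel
  rot a b d := by
    unfold K4L.bd
    rw [show -b - (-a - b) = a by ring]
    abel
  neg a b d := by
    unfold K4L.bd
    rw [show - -a - -b = -(-a - b) by ring, h.ev, h.ev2, h.ev, h.ev2, h.ev, h.ev2]
  evd a b d := by
    unfold K4L.bd
    rw [h.ev3, h.ev3, h.ev3]
  zd a b := by
    unfold K4L.bd
    rw [h.z3, h.z3, h.z3, add_zero, add_zero]
  xi a b := by
    unfold K4L.bd
    rw [h.d13, h.d23, h.d23, h.d13, ← h.cyc (-a - b) a b, ← h.cyc a b (-a - b)]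
    abel
  un u hu a b d := by
    unfold K4L.bd
    rw [show -((u : ZMod N) * a) - u * b = u * (-a - b) by ring, h.un u hu, h.un u hu, h.un u hu]
  r4 x y z w hs := by
    unfold K4L.bd
    have e1 : -x - y = z + w := by linear_combination -hs
    have e2 : -z - w = -(z + w) := by ring
    have e3 : -y - z = x + w := by linear_combination -hs
    have e4 : -w - x = -(x + w) := by ring
    rw [e1, e2, e3, e4]
    simp only [h.ev, h.ev2]
    generalize z + w = p
    generalize x + w = q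
    rw [h.s13 y p w, ← h.cyc w p x, h.cyc y p z, h.s2 p x z, h.s13 z q x, ← h.cyc x q y,
      h.cyc z q w, h.s2 q y w, h.cyc x y z, h.cyc y z w, h.cyc z w x, h.cyc w x y]
    abel

omit [Module ℚ M] in
lemma LSys.sub {f g : ZMod N → ZMod N → ZMod N → M} (hf : LSys N UL f) (hg : LSys N UL g) :
    LSys N UL (fun a b d => f a b d - g a b d) where
  sw a b d := by rw [hf.sw, hg.sw]; abel
  rot a b d := by rw [hf.rot, hg.rot]
  neg a b d := by rw [hf.neg, hg.neg]
  evd a b d := by rw [hf.evd, hg.evd]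
  zd a b := by rw [hf.zd, hg.zd, sub_zero]
  xi a b := by rw [hf.xi, hg.xi]
  un u hu a b d := by rw [hf.un u hu, hg.un u hu]
  r4 x y z w hs := by
    have h1 := hf.r4 x y z w hs
    have h2 := hg.r4 x y z w hs
    rw [← sub_zero (0 : M)]
    nth_rewrite 1 [← h1]
    rw [← h2]
    abel

/-- the value at a key -/
def val (g : ZMod N → ZMod N → ZMod N → M) (k : ℕ) : M :=
  g ((k / (N * N) : ℕ) : ZMod N) ((k / N % N : ℕ) : ZMod N) ((k % N : ℕ) : ZMod N)

/-- the sign -/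
def sgn (s : ℕ) : ℤ := if s % 2 = 0 then 1 else -1

/-- the value at a normal form -/
def dec (g : ZMod N → ZMod N → ZMod N → M) (r : ℕ) : M :=
  if r = 0 then 0 else sgn r • val g (r / 2)

/-- the invariant of a tuple during the normalisation of `(a, b)` -/
def Ok (g : ZMod N → ZMod N → ZMod N → M) (a b : ZMod N) (x : ℕ × ℕ × ℕ × ℕ) : Prop :=
  x.1 < 2 ∧ x.2.1 < N ∧ x.2.2.1 < N ∧ x.2.2.2 < N ∧
    (x.2.1 ≠ 0 ∧ x.2.2.1 ≠ 0 ∧ x.2.2.2 ≠ 0) ∧
    (x.2.2.2 : ZMod N) = -(x.2.1 : ZMod N) - (x.2.2.1 : ZMod N) ∧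
    ∀ d, g a b d = sgn x.1 • g x.2.1 x.2.2.1 d

omit [Module ℚ M] in
lemma sgn_one_sub {s : ℕ} (h : s < 2) : sgn (1 - s) = - sgn s := by
  interval_cases s <;> rfl

omit [Module ℚ M] in
lemma ok_sw1 {g : ZMod N → ZMod N → ZMod N → M} (hg : LSys N UL g) {a b : ZMod N}
    {x : ℕ × ℕ × ℕ × ℕ} (h : Ok g a b x) : Ok g a b (sw1 N x) := by
  obtain ⟨s, p, q, r⟩ := x
  unfold sw1
  cases Nat.ble (cl N (s, p, q, r).2.1) (cl N (s, p, q, r).2.2.1)
  · obtain ⟨h1, h2, h3, h4, ⟨h5, h6, h7⟩, h8, h9⟩ := h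
    simp only [cond_false]
    refine ⟨by simp only; omega, h3, h2, h4, ⟨h6, h5, h7⟩, ?_, fun d => ?_⟩
    · simp only at h8 ⊢
      rw [h8]; ring
    · simp only at h1 h9 ⊢
      rw [h9, sgn_one_sub h1, hg.sw, smul_neg, neg_smul]
  · exact h

omit [Module ℚ M] in
lemma ok_sw2 {g : ZMod N → ZMod N → ZMod N → M} (hg : LSys N UL g) {a b : ZMod N}
    {x : ℕ × ℕ × ℕ × ℕ} (h : Ok g a b x) : Ok g a b (sw2 N x) := by
  obtain ⟨s, p, q, r⟩ := x
  unfold sw2
  cases Nat.ble (cl N (s, p, q, r).2.2.1) (cl N (s, p, q, r).2.2.2)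
  · obtain ⟨h1, h2, h3, h4, ⟨h5, h6, h7⟩, h8, h9⟩ := h
    simp only [cond_false]
    refine ⟨by simp only; omega, h2, h4, h3, ⟨h5, h7, h6⟩, ?_, fun d => ?_⟩
    · simp only at h8 ⊢
      rw [h8]; ring
    · simp only at h1 h8 h9 ⊢
      have e : g (p : ZMod N) (r : ZMod N) d = - g p q d := by
        rw [h8, hg.sw, ← hg.rot (-(p : ZMod N) - q) p d]
        congr 2
        ring
      rw [h9, sgn_one_sub h1, e, smul_neg, neg_smul, neg_neg]
  · exact h

omit [Module ℚ M] in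
lemma ok_sg1 {g : ZMod N → ZMod N → ZMod N → M} (hg : LSys N UL g) {a b : ZMod N}
    {x : ℕ × ℕ × ℕ × ℕ} (h : Ok g a b x) : Ok g a b (sg1 N x) := by
  obtain ⟨s, p, q, r⟩ := x
  unfold sg1
  cases (Nat.blt N (2 * (s, p, q, r).2.1) || (Nat.beq (2 * (s, p, q, r).2.1) N &&
    Nat.blt N (2 * (s, p, q, r).2.2.1)))
  · exact h
  · obtain ⟨h1, h2, h3, h4, ⟨h5, h6, h7⟩, h8, h9⟩ := h
    simp only [cond_true]
    simp only at h1 h2 h3 h4 h5 h6 h7 h8 h9
    have cp : ((N - p : ℕ) : ZMod N) = -(p : ZMod N) := by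
      rw [Nat.cast_sub h2.le, ZMod.natCast_self, zero_sub]
    have cq : ((N - q : ℕ) : ZMod N) = -(q : ZMod N) := by
      rw [Nat.cast_sub h3.le, ZMod.natCast_self, zero_sub]
    have cr : ((N - r : ℕ) : ZMod N) = -(r : ZMod N) := by
      rw [Nat.cast_sub h4.le, ZMod.natCast_self, zero_sub]
    refine ⟨h1, by simp only; omega, by simp only; omega, by simp only; omega,
      ⟨by simp only; omega, by simp only; omega, by simp only; omega⟩, ?_, fun d => ?_⟩
    · simp only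
      rw [cp, cq, cr, h8]; ring
    · simp only
      rw [cp, cq, hg.neg]
      exact h9 d

lemma c3_cast [NeZero N] {a b : ℕ} (ha : a < N) (hb : b < N) :
    ((c3 N a b : ℕ) : ZMod N) = -(a : ZMod N) - b := by
  unfold c3
  rw [ZMod.natCast_mod, Nat.sub_sub, Nat.cast_sub (by omega), Nat.cast_mul, ZMod.natCast_self,
    Nat.cast_add]
  ring

lemma beq_false {a b : ℕ} (h : Nat.beq a b = false) : a ≠ b := by
  intro e
  rw [e] at h
  have := Nat.beq_refl b
  rw [this] at h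
  exact absurd h (by decide)

lemma deg_false {a b c : ℕ} (h : deg a b c = false) :
    a ≠ 0 ∧ b ≠ 0 ∧ c ≠ 0 ∧ a ≠ b ∧ b ≠ c ∧ a ≠ c := by
  unfold deg at h
  simp only [Bool.or_eq_false_iff] at h
  obtain ⟨⟨⟨⟨⟨h1, h2⟩, h3⟩, h4⟩, h5⟩, h6⟩ := h
  exact ⟨beq_false h1, beq_false h2, beq_false h3, beq_false h4, beq_false h5, beq_false h6⟩

lemma deg_true {a b c : ℕ} (h : deg a b c = true) :
    a = 0 ∨ b = 0 ∨ c = 0 ∨ a = b ∨ b = c ∨ a = c := by
  unfold deg at h
  simp only [Bool.or_eq_true, Nat.beq_eq] at h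
  tauto

omit [Module ℚ M] in
lemma ok_tn [NeZero N] {g : ZMod N → ZMod N → ZMod N → M} (hg : LSys N UL g) {a b : ℕ}
    (ha : a < N) (hb : b < N) (h : deg a b (c3 N a b) = false) :
    Ok g (a : ZMod N) (b : ZMod N) (tn N a b) := by
  obtain ⟨h1, h2, h3, -⟩ := deg_false h
  refine ok_sg1 hg (ok_sw1 hg (ok_sw2 hg (ok_sw1 hg ?_)))
  refine ⟨by simp, ha, hb, Nat.mod_lt _ (Nat.pos_of_ne_zero (NeZero.ne N)), ⟨h1, h2, h3⟩,
    c3_cast ha hb, fun d => ?_⟩
  simp [sgn]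

lemma LSys.z1 {g : ZMod N → ZMod N → ZMod N → M} (hg : LSys N UL g) (b d : ZMod N) :
    g 0 b d = 0 := by
  have h1 : g b (-b) d = 0 := by
    refine self_neg ?_
    have h2 := hg.neg b (-b) d
    rw [neg_neg, hg.sw b (-b) d] at h2
    exact h2.symm
  have h3 := hg.rot 0 b d
  rw [neg_zero, zero_sub] at h3
  rw [← h3, h1]

lemma LSys.z2 {g : ZMod N → ZMod N → ZMod N → M} (hg : LSys N UL g) (b d : ZMod N) :
    g b 0 d = 0 := by
  rw [hg.sw, hg.z1, neg_zero]

lemma LSys.z12 {g : ZMod N → ZMod N → ZMod N → M} (hg : LSys N UL g) (b d : ZMod N) :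
    g b b d = 0 := self_neg (hg.sw b b d)

lemma LSys.z3 {g : ZMod N → ZMod N → ZMod N → M} (hg : LSys N UL g) {a b : ZMod N}
    (h : -a - b = 0) (d : ZMod N) : g a b d = 0 := by
  rw [← hg.rot, h, hg.z2]

lemma LSys.z23 {g : ZMod N → ZMod N → ZMod N → M} (hg : LSys N UL g) {a b : ZMod N}
    (h : -a - b = b) (d : ZMod N) : g a b d = 0 := by
  rw [← hg.rot, h, hg.z12]

lemma LSys.z13 {g : ZMod N → ZMod N → ZMod N → M} (hg : LSys N UL g) {a b : ZMod N}
    (h : -a - b = a) (d : ZMod N) : g a b d = 0 := by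
  rw [hg.sw, hg.z23 (by linear_combination h), neg_zero]

lemma g_deg [NeZero N] {g : ZMod N → ZMod N → ZMod N → M} (hg : LSys N UL g) {a b : ℕ}
    (ha : a < N) (hb : b < N) (h : deg a b (c3 N a b) = true) (d : ZMod N) :
    g (a : ZMod N) (b : ZMod N) d = 0 := by
  have hc := c3_cast (N := N) ha hb
  rcases deg_true h with h | h | h | h | h | h
  · rw [h, Nat.cast_zero, hg.z1]
  · rw [h, Nat.cast_zero, hg.z2]
  · rw [h, Nat.cast_zero] at hc
    exact hg.z3 hc.symm d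
  · rw [h, hg.z12]
  · rw [← h] at hc
    exact hg.z23 hc.symm d
  · rw [← h] at hc
    exact hg.z13 hc.symm d

lemma cl_lt {a : ℕ} (h : a < N) : cl N a < N := by
  unfold cl
  cases h1 : Nat.ble (2 * a) N
  · simp only [cond_false]
    have : ¬ (2 * a ≤ N) := by
      intro h2
      rw [← Nat.ble_eq, h1] at h2
      exact absurd h2 (by decide)
    omega
  · exact h

omit [AddCommGroup M] [Module ℚ M] in
lemma g_cl {g : ZMod N → M} (hg : ∀ d, g (-d) = g d) {a : ℕ} (h : a < N) :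
    g (cl N a : ℕ) = g (a : ZMod N) := by
  unfold cl
  cases h1 : Nat.ble (2 * a) N
  · simp only [cond_false]
    rw [Nat.cast_sub h.le, ZMod.natCast_self, zero_sub, hg]
  · rfl

omit [Module ℚ M] in
lemma g_dn {g : ZMod N → ZMod N → ZMod N → M} (hg : LSys N UL g) {a b : ZMod N}
    {x : ℕ × ℕ × ℕ × ℕ} (h : Ok g a b x) {d : ℕ} (hd : d < N) :
    g x.2.1 x.2.2.1 (dn N x (cl N d) : ℕ) = g x.2.1 x.2.2.1 (d : ZMod N) := by
  obtain ⟨s, p, q, r⟩ := x
  obtain ⟨h1, h2, h3, h4, ⟨h5, h6, h7⟩, h8, h9⟩ := h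
  simp only at h1 h2 h3 h4 h5 h6 h7 h8 h9 ⊢
  have e : g p q (cl N d : ℕ) = g p q d := g_cl (hg.evd p q) hd
  unfold dn
  simp only
  have ep : g p q (cl N p : ℕ) = g p q p := g_cl (hg.evd p q) h2
  have eq : g p q (cl N q : ℕ) = g p q q := g_cl (hg.evd p q) h3
  have er : g p q (cl N r : ℕ) = g p q r := g_cl (hg.evd p q) h4
  cases hh : (Nat.beq (cl N d) (cl N q) || Nat.beq (cl N d) (cl N r))
  · exact e
  · simp only [cond_true]
    rw [ep, ← e]
    rw [Bool.or_eq_true, Nat.beq_eq, Nat.beq_eq] at hh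
    rcases hh with hh | hh
    · rw [hh, eq, hg.xi]
    · rw [hh, er, h8, hg.xi, ← hg.rot p q q, ← hg.rot p q (-p - q), hg.xi]

omit [Module ℚ M] in
lemma dec_kn {g : ZMod N → ZMod N → ZMod N → M} (hg : LSys N UL g) {a b : ZMod N}
    {x : ℕ × ℕ × ℕ × ℕ} (h : Ok g a b x) {d : ℕ} (hd : d < N) :
    dec g (kn N x d) = g a b d := by
  have e := g_dn hg h hd
  obtain ⟨s, p, q, r⟩ := x
  obtain ⟨h1, h2, h3, h4, ⟨h5, h6, h7⟩, h8, h9⟩ := h
  simp only at h1 h2 h3 h4 h5 h6 h7 h8 h9 e ⊢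
  have hdn : dn N (s, p, q, r) (cl N d) < N := by
    unfold dn
    cases (Nat.beq (cl N d) (cl N (s, p, q, r).2.2.1) || Nat.beq (cl N d) (cl N (s, p, q, r).2.2.2))
    · exact cl_lt hd
    · exact cl_lt h2
  unfold dec kn
  simp only
  generalize dn N (s, p, q, r) (cl N d) = m at e hdn
  have hN : 0 < N := by omega
  set K := (p * N + q) * N + m with hK
  have k0 : 0 < K := by
    have : 0 < p * N := Nat.mul_pos (Nat.pos_of_ne_zero h5) hN
    have h2 : 0 < (p * N + q) * N := Nat.mul_pos (by omega) hN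
    omega
  have k1 : K / (N * N) = p := by
    rw [← Nat.div_div_eq_div_mul, hK, Nat.add_comm, Nat.add_mul_div_right _ _ hN,
      Nat.div_eq_of_lt hdn, Nat.zero_add, Nat.add_comm, Nat.add_mul_div_right _ _ hN,
      Nat.div_eq_of_lt h3, Nat.zero_add]
  have k2 : K / N % N = q := by
    rw [hK, Nat.add_comm, Nat.add_mul_div_right _ _ hN, Nat.div_eq_of_lt hdn, Nat.zero_add,
      Nat.add_comm, Nat.add_mul_mod_self_right, Nat.mod_eq_of_lt h3]
  have k3 : K % N = m := by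
    rw [hK, Nat.add_comm, Nat.add_mul_mod_self_right, Nat.mod_eq_of_lt hdn]
  rw [if_neg (by omega), h9]
  have e1 : (2 * K + s) / 2 = K := by omega
  have e2 : sgn (2 * K + s) = sgn s := by
    unfold sgn
    rw [Nat.mul_add_mod]
  rw [e1, e2]
  unfold val
  rw [k1, k2, k3, e]

theorem dec_nf [NeZero N] {g : ZMod N → ZMod N → ZMod N → M} (hg : LSys N UL g) {a b d : ℕ}
    (ha : a < N) (hb : b < N) (hd : d < N) :
    dec g (nf N a b d) = g (a : ZMod N) (b : ZMod N) (d : ZMod N) := by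
  unfold nf
  cases h : deg a b (c3 N a b)
  · cases h0 : Nat.beq d 0
    · simp only [Bool.or_self, cond_false]
      exact dec_kn hg (ok_tn hg ha hb h) hd
    · simp only [Bool.or_true, cond_true]
      rw [Nat.beq_eq] at h0
      rw [h0, Nat.cast_zero, hg.zd]
      rfl
  · simp only [Bool.true_or, cond_true]
    rw [g_deg hg ha hb h]
    rfl

theorem dec_nfu [NeZero N] {g : ZMod N → ZMod N → ZMod N → M} (hg : LSys N UL g) {u : ℕ}
    (hu : u ∈ UL) (a b d : ℕ) :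
    dec g (nfu N u a b d) = g (a : ZMod N) (b : ZMod N) (d : ZMod N) := by
  have hN := Nat.pos_of_ne_zero (NeZero.ne N)
  unfold nfu
  rw [dec_nf hg (Nat.mod_lt _ hN) (Nat.mod_lt _ hN) (Nat.mod_lt _ hN)]
  simp only [ZMod.natCast_mod, Nat.cast_mul]
  exact hg.un u hu _ _ _

end Pool.Agent.K4L
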