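import Pool.Agent.Lib_helper7.K4L.Shf
import Pool.Agent.Lib_helper86.K4H.L589
import Pool.Agent.Lib_helper60.K4H.L1
import Pool.Agent.Lib_helper60.K4M.Bri
import Pool.Agent.Lib_helper86.K4.S1

set_option autoImplicit false
set_option linter.unusedSectionVars false

/-!
Project K4L: the torsion points of an elliptic curve.
-/

namespace Pool.Agent.K4L

open Pool.Agent.K4ParP

section gen

variable {T B G H : Type*} [AddCommGroup T] [AddCommGroup B] [Module ℚ B]
  [AddCommGroup G] [Module ℚ G] [AddCommGroup H] [Module ℚ H]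
  {m : B →ₗ[ℚ] G →ₗ[ℚ] H} {t : T → T → B} {g : T → G}

/-- the four term relation on a torsion group -/
theorem R4T (hT : K4M.LF T) (ht : IsT t) (hg : IsG g) (hr : ∀ P, Rel m t g P) (x y z w : T)
    (hs : x + y + z + w = 0) :
    m (t x y) (g w - g z) + m (t z w) (g y - g x)
      + m (t y z) (g x - g w) + m (t w x) (g z - g y)
      + (1 / 3 : ℚ) • (xi m t g x y + xi m t g y z + xi m t g z w
        + xi m t g w x - (2 : ℚ) • xi m t g x z
        - (2 : ℚ) • xi m t g y w) = 0 := by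
  obtain ⟨n, hn, ha, hb, hc⟩ := hT.three x y z
  have := hT.fin n hn
  have := Fintype.ofFinite (K4M.torS T n)
  have hx : x ∈ K4M.torS T n := K4M.mem_torS.mpr ha
  have hy : y ∈ K4M.torS T n := K4M.mem_torS.mpr hb
  have hz : z ∈ K4M.torS T n := K4M.mem_torS.mpr hc
  have hw : w ∈ K4M.torS T n := by
    have : w = -(x + y + z) := by
      rw [eq_comm]; exact (eq_neg_of_add_eq_zero_right hs).symm
    rw [this]
    exact neg_mem (add_mem (add_mem hx hy) hz)
  exact R4 (m := m) (K4M.isT_restr (K4M.torS T n) ht) (K4M.isG_restr (K4M.torS T n) hg)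
    (K4M.rel_restr (K4M.torS T n) ht hr) ⟨x, hx⟩ ⟨y, hy⟩ ⟨z, hz⟩ ⟨w, hw⟩ (Subtype.ext hs)

/-- the data of the project -/
theorem dt_of (hT : K4M.LF T) (ht : IsT t) (hg : IsG g) (h0 : g 0 = 0)
    (hr : ∀ P, Rel m t g P) : Dt t g m where
  swap := ht.swap
  rot := ht.rot
  even := ht.even
  zero := h0
  geven := hg
  r4 x y z w hs := R4T hT ht hg hr x y z w hs

end gen

end Pool.Agent.K4L

namespace Pool.Agent.MK4

open Pool.Agent.K4L
open scoped TensorProduct

variable {F : Type*} [Field F] [CharZero F] [IsAlgClosed F] [DecidableEq F]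
  {W : WeierstrassCurve.Affine F}

/-- the data of the project on the torsion points -/
theorem dtT (hW : W.Δ ≠ 0) {t : To W → To W → B2 F} (h : HypT hW t) :
    Dt (B := K4M.B2 F) (X := K4M.FT F) t (K4M.gT : To W → K4M.FT F) (K4M.hkL F) :=
  dt_of K4M.TP_LF h.1 isG_gT K4M.gT_zero (relH hW h)

/-- the differential -/
theorem diffT (hW : W.Δ ≠ 0) {t : To W → To W → K4M.B2 F} (ht : K4ParP.IsT t)
    (hC : ∀ P a b c d : To W, K4D2.fT (K4D2.h2_closed hW) P a b c d = K4ParP.CR t P a b c d)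
    (a b : To W) (u : K4M.FT F) : K4M.dH F (K4M.hk (t a b) u) =
      (ExteriorAlgebra.ι ℚ (K4M.gT a) * ExteriorAlgebra.ι ℚ (K4M.gT b) +
        ExteriorAlgebra.ι ℚ (K4M.gT b) * ExteriorAlgebra.ι ℚ (K4M.gT (a + b)) +
        ExteriorAlgebra.ι ℚ (K4M.gT (a + b)) * ExteriorAlgebra.ι ℚ (K4M.gT a)) *
        ExteriorAlgebra.ι ℚ u := by
  rw [K4M.dH_hk, K4D2.de_closed hW ht hC a b]
  rfl

end Pool.Agent.MK4
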